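import Mathlib

/-! Iterated integrals along the segment from `0` to `t`. -/

namespace Pool.Agent.Lib.MP_12eca1_ag

/-- `itInt [a₁, …, a_w] t` is the iterated integral of
`dt₁ / (t₁ - a₁) ⋯ dt_w / (t_w - a_w)` over `t > t₁ > ⋯ > t_w > 0`. -/
noncomputable def itInt : List ℂ → ℝ → ℂ
  | [], _ => 1
  | a :: u, t => ∫ s in (0 : ℝ)..t, itInt u s / (s - a)

end Pool.Agent.Lib.MP_12eca1_ag
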