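import Pool.Agent.Lib.MP_12eca1_ag.Z.Mom
import Pool.Agent.Lib.MP_12eca1_ag.Y.Defs

-- part Pool.Agent.Lib.MP_12eca1_ag.Z.Main
section

/-! The lower bound for the dimension of the space of multiple zeta values. -/

namespace Pool.Agent.Lib.MP_12eca1_ag.MZ

open Finset Module Filter Topology Metric Pool.Agent.Lib.MP_dda4e9_nt
  Pool.Agent.Lib.MP_dda4e9_nt.LB

theorem count1 {ι μ : Type*} [Fintype ι] [Fintype μ] (U : Submodule ℂ (ι → ℂ))
    (c : μ → ι → ℕ) (X E : ℕ) (hc : ∀ r, ∑ i, c r i ≤ E)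
    (h : ∀ J : ι → ℤ, (∀ i, |J i| ≤ X) → (∀ r, ∑ i, (c r i : ℤ) * J i = 0) →
      ∀ y ∈ U, ∑ i, y i * J i = 0) :
    (X + 1) ^ finrank ℂ U ≤ (E * X + 1) ^ Fintype.card μ := by
  simpa using count (fun k => (finBasis ℂ U k : ι → ℂ))
    ((finBasis ℂ U).linearIndependent.map' U.subtype U.ker_subtype) c X E hc
    fun J h1 h2 k => h J h1 h2 _ (finBasis ℂ U k).2

theorem count2 {ι κ μ : Type*} [Fintype ι] [Fintype κ] [Fintype μ] (B : κ → ι → ℂ)
    (hB : LinearIndependent ℂ B) (c' : μ → κ → ℕ) (c : μ → ι → ℕ) (X E : ℕ)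
    (hc' : ∀ r, ∑ i, c' r i ≤ E) (hc : ∀ r, ∑ i, c r i ≤ E)
    (h : ∀ A : κ → ℤ, (∀ i, |A i| ≤ X) → (∀ r, ∑ i, (c' r i : ℤ) * A i = 0) →
      ∀ J : ι → ℤ, (∀ i, |J i| ≤ X) → (∀ r, ∑ i, (c r i : ℤ) * J i = 0) →
        ∑ k, ∑ i, A k * (B k i * J i) = 0) :
    (X + 1) ^ Fintype.card κ ≤ (E * X + 1) ^ (2 * Fintype.card μ) := by
  classical
  let V : Submodule ℂ (κ → ℂ) := Submodule.span ℂ {y | ∃ A : κ → ℤ, (∀ i, |A i| ≤ X) ∧
    (∀ r, ∑ i, (c' r i : ℤ) * A i = 0) ∧ y = fun k => (A k : ℂ)}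
  have h1 := count1 (V.map (Fintype.linearCombination ℂ B)) c X E hc fun J a1 a2 => by
    rintro _ ⟨y, hy, rfl⟩
    induction hy using Submodule.span_induction with
    | mem y hy =>
      obtain ⟨A, a3, a4, rfl⟩ := hy
      rw [← h A a3 a4 J a1 a2, sum_comm]
      simp [Fintype.linearCombination_apply, sum_mul, mul_assoc]
    | zero => simp
    | add y z _ _ hy hz => simp only [map_add, Pi.add_apply, add_mul, sum_add_distrib, hy, hz, add_zero]
    | smul a y _ hy =>
      simp only [map_smul, Pi.smul_apply, smul_eq_mul, mul_assoc, ← mul_sum, hy, mul_zero]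
  let ψ : Dual ℂ (κ → ℂ) →ₗ[ℂ] κ → ℂ := LinearMap.pi fun k => Dual.eval ℂ _ (Pi.single k 1)
  have hψ : ∀ φ y, ∑ k, ψ φ k * y k = φ y := fun φ y => by
    conv_rhs => rw [← univ_sum_single y, map_sum]
    refine sum_congr rfl fun k _ => ?_
    rw [show Pi.single k (y k) = y k • (Pi.single k 1 : κ → ℂ) by simp [← Pi.single_smul],
      map_smul]
    simp [ψ, mul_comm]
  have h2 := count1 (V.dualAnnihilator.map ψ) c' X E hc' fun A a1 a2 => by
    rintro _ ⟨φ, hφ, rfl⟩
    rw [hψ]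
    exact (Submodule.mem_dualAnnihilator φ).1 hφ _ (Submodule.subset_span ⟨A, a1, a2, rfl⟩)
  rw [← (Submodule.equivMapOfInjective _
    (linearIndependent_iff_injective_fintypeLinearCombination.1 hB) V).finrank_eq] at h1
  rw [← (Submodule.equivMapOfInjective ψ ((injective_iff_map_eq_zero _).2 fun φ e =>
    LinearMap.ext fun y => by simp [← hψ, e]) _).finrank_eq] at h2
  have h3 := Subspace.finrank_add_finrank_dualAnnihilator_eq V
  rw [finrank_fintype_fun_eq_card] at h3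
  rw [← h3, pow_add, two_mul, pow_add]
  exact Nat.mul_le_mul h1 h2

/-- the auxiliary function -/
noncomputable def aux {N n : ℕ} (J : Fin N × Fin (n + 1) → ℤ) (t : ℂ) : ℂ :=
  ∑ q, t ^ (q.2 : ℕ) * ff q.1 t * J q

theorem small2 (N0 : ℕ) : ∃ C : ℝ, 0 ≤ C ∧ ∀ N ≤ N0, ∀ (n M : ℕ) (X : ℝ)
    (J : Fin N × Fin (n + 1) → ℤ), 0 ≤ X → (∀ q, (|J q| : ℝ) ≤ X) →
      (∀ r < M, ∑ q, cf q.1 q.2 r * J q = 0) → ∀ t ∈ II,
      ‖aux J t‖ ≤ N0 * (n + 1) * (3 ^ n * C * X) / √(1 - t) ∧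
      (t ≤ 1 / 2 → ‖aux J t‖ ≤ (5 / 6) ^ M * (N0 * (n + 1) * (3 ^ n * C * X))) := by
  choose c hc using fun u => (isCompact_closedBall (-1 : ℂ) (19 / 10)).exists_bound_of_continuousOn
    ((ff_diff u).continuousOn.mono cb_sub)
  choose c' hc0 hc' using gg_bound
  have hC : ∀ u < N0, |c u| + c' u ≤ ∑ u ∈ range N0, (|c u| + c' u) := fun u hu =>
    single_le_sum (f := fun u => |c u| + c' u) (fun u _ => add_nonneg (abs_nonneg _) (hc0 u))
      (mem_range.2 hu)
  have hC0 : 0 ≤ ∑ u ∈ range N0, (|c u| + c' u) :=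
    sum_nonneg fun u _ => add_nonneg (abs_nonneg _) (hc0 u)
  refine ⟨_, hC0, fun N hN n M X J hX hJ he t ht => ?_⟩
  set C := ∑ u ∈ range N0, (|c u| + c' u)
  have hb : ∀ (z : ℂ) (D : ℝ), 0 ≤ D → ‖z‖ ≤ 3 → (∀ u < N0, ‖ff u z‖ ≤ D) →
      ‖aux J z‖ ≤ N0 * (n + 1) * (3 ^ n * D * X) := fun z D hD h3 h => by
    refine (norm_sum_le _ _).trans ((sum_le_card_nsmul _ _ (3 ^ n * D * X) fun q _ => ?_).trans ?_)
    · rw [norm_mul, norm_mul, norm_pow, Complex.norm_intCast]
      refine mul_le_mul (mul_le_mul ?_ (h _ (q.1.2.trans_le hN)) (norm_nonneg _) (by positivity))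
        (hJ q) (abs_nonneg _) (by positivity)
      exact (pow_le_pow_left₀ (norm_nonneg _) h3 _).trans
        (pow_le_pow_right₀ (by norm_num) (Nat.le_of_lt_succ q.2.2))
    · simp only [card_univ, Fintype.card_prod, Fintype.card_fin, nsmul_eq_mul]
      push_cast
      gcongr
  have hn : ‖(t : ℂ)‖ ≤ 1 := by simpa [abs_of_pos ht.1] using ht.2.le
  refine ⟨(hb t (C / √(1 - t)) (by positivity) (by linarith) fun u hu => ?_).trans_eq (by ring),
    fun h2 => ?_⟩
  · refine (hc' u t ht).1.trans (div_le_div_of_nonneg_right ?_ (Real.sqrt_nonneg _))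
    linarith [hC u hu, abs_nonneg (c u)]
  refine schwarz (c := fun r => ∑ q : Fin N × Fin (n + 1), cf q.1 q.2 r * J q)
    (DifferentiableOn.fun_sum fun q _ => ((differentiableOn_pow _).mul (ff_diff _)).mul_const _)
    (fun z hz => ?_) (fun r hr => by exact_mod_cast he r hr) (fun z hz => ?_) hn (by simpa using h2)
  · refine (hasSum_sum (s := univ) fun (q : Fin N × Fin (n + 1)) _ =>
      (hasSum_cf q.1 q.2 hz).mul_right (J q : ℂ)).congr_fun fun r => ?_
    rw [sum_mul]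
    exact sum_congr rfl fun q _ => by ring
  · refine hb z C hC0 ?_ fun u hu => ?_
    · have := norm_sub_norm_le z (-1)
      rw [mem_closedBall_iff_norm] at hz
      simp at this hz
      linarith
    · linarith [hc u z hz, hC u hu, le_abs_self (c u), hc0 u]

variable {c : ℕ → ℕ → ℂ} {m : ℕ → ℕ → ℕ → ℂ}

/-- the bilinear form -/
noncomputable def bil (m : ℕ → ℕ → ℕ → ℂ) {H N n : ℕ} (A : Fin H × Fin (n + 1) → ℤ)
    (J : Fin N × Fin (n + 1) → ℤ) : ℂ :=
  ∑ p, ∑ q, A p * (df (fun i => m i p.1 q.1) p.2 q.2 * J q)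

theorem bil_small (hm : ∀ j v w, Pr (fun t => t ^ j * PP2 v w t) (m j v w)) (N0 : ℕ) :
    ∃ C : ℝ, 0 ≤ C ∧ ∀ H ≤ N0, ∀ (n M : ℕ) (X : ℝ) (A : Fin H × Fin (n + 1) → ℤ)
      (J : Fin N0 × Fin (n + 1) → ℤ), 0 ≤ X → (∀ q, (|A q| : ℝ) ≤ X) → (∀ q, (|J q| : ℝ) ≤ X) →
      (∀ r < M, ∑ q, cf q.1 q.2 r * A q = 0) → (∀ r < M, ∑ q, cf q.1 q.2 r * J q = 0) →
      ‖bil m A J‖ ≤ 4 * ((5 / 6) ^ M * (N0 * (n + 1) * (3 ^ n * C * X)) ^ 2) := by
  obtain ⟨C, hC, h⟩ := small2 N0
  refine ⟨C, hC, fun H hH n M X A J hX hA hJ eA eJ => ?_⟩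
  have h1 : Pr (fun t => aux A (1 - t : ℝ) * aux J t) (bil m A J) := by
    refine (Pr.sum univ fun p => Pr.sum univ fun q =>
      ((df_pr (fun i => hm i p.1 q.1) p.2 q.2).cmul (A p * J q))).congr (fun t _ => ?_) ?_
    · rw [aux, aux, sum_mul_sum]
      refine sum_congr rfl fun p _ => sum_congr rfl fun q _ => ?_
      simp only [PP2, gg]
      push_cast
      ring
    · exact sum_congr rfl fun p _ => sum_congr rfl fun q _ => by ring
  refine h1.bound (by positivity) fun t ht => ?_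
  have h2 := h H hH n M X A hX hA eA _ (II_sub ht)
  have h3 := h N0 le_rfl n M X J hX hJ eJ _ ht
  set K := N0 * (n + 1) * (3 ^ n * C * X)
  have hK : 0 ≤ K := by positivity
  rw [sub_sub_cancel] at h2
  rw [norm_mul, mul_add]
  rcases le_total t (1 / 2) with h4 | h4
  · exact ((mul_le_mul h2.1 (h3.2 h4) (norm_nonneg _) (by positivity)).trans_eq (by ring)).trans
      (le_add_of_nonneg_right (by positivity))
  · exact ((mul_le_mul (h2.2 (by linarith)) h3.1 (norm_nonneg _) (by positivity)).trans_eq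
      (by ring)).trans (le_add_of_nonneg_left (by positivity))

/-- the scaled linear forms attached to pairs of small solutions of the vanishing conditions -/
def Fm2 (m : ℕ → ℕ → ℕ → ℂ) (H n M X D : ℕ) : Set ℂ :=
  {f | ∃ (A : Fin H × Fin (n + 1) → ℤ) (J : Fin (4 * H) × Fin (n + 1) → ℤ), (∀ p, |A p| ≤ X) ∧
    (∀ p, |J p| ≤ X) ∧ (∀ r < M, ∑ p, cf p.1 p.2 r * A p = 0) ∧
    (∀ r < M, ∑ p, cf p.1 p.2 r * J p = 0) ∧ f = D * bil m A J}

theorem cons {N n M a : ℕ} (ha : N ≤ 2 ^ a) (hP : N * (n + 1) ≤ 2 ^ (2 * n)) :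
    ∃ e : Fin M → Fin N × Fin (n + 1) → ℕ, (∀ r, ∑ p, e r p ≤ 2 ^ (2 * n) * 2 ^ (9 * M * a)) ∧
      ∀ J : Fin N × Fin (n + 1) → ℤ, (∀ r, ∑ p, (e r p : ℤ) * J p = 0) →
        ∀ r < M, ∑ p, cf p.1 p.2 r * J p = 0 := by
  choose e h1 h2 using fun (r : Fin M) (p : Fin N × Fin (n + 1)) =>
    cf_nat (a := a) (w := p.1) p.2 (Nat.size_le.2 (p.1.2.trans_le ha)) r.2
  refine ⟨e, fun r => (sum_le_card_nsmul _ _ _ fun p _ => h2 r p).trans (by simpa using hP),
    fun J he r hr => ?_⟩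
  have := congrArg (Int.cast (R := ℝ)) (he ⟨r, hr⟩)
  simp only [Int.cast_sum, Int.cast_mul, Int.cast_natCast, h1, mul_assoc, ← mul_sum,
    Int.cast_zero] at this
  exact (mul_eq_zero.1 this).resolve_left
    (pow_ne_zero _ (Nat.cast_ne_zero.2 (Nat.lcmUpto_ne_zero _)))

theorem one_mem2 (h : RecZ c m) (h0 : c 0 0 = 1) {q a n D : ℕ} (hq : 4 ≤ q)
    (ha : 4 * (q * q) ≤ 2 ^ a) (hn : 40 * (q * q) ≤ n)
    (hP : 4 * (q * q) * (n + 1) ≤ 2 ^ (2 * n)) (hD : D ≠ 0) :
    (1 : ℂ) ∈ Submodule.span ℚ (Fm2 m (q * q) n (q * n) (2 ^ ((36 * a + 4) * n) - 1) D) := by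
  by_contra h1
  obtain ⟨φ, h2, h3⟩ := Submodule.exists_le_ker_of_notMem h1
  let Λ : ℂ →ₗ[ℚ] ℂ := Algebra.linearMap ℚ ℂ ∘ₗ φ
  have hz := zero_est2 (h.map Λ) (by simpa [Λ, h0] using h2) hn
  obtain ⟨e1, a1, a2⟩ := cons (M := q * n) (N := q * q) (n := n) (a := a) (by omega) (by nlinarith)
  obtain ⟨e2, a3, a4⟩ := cons (M := q * n) ha hP
  have h4 := count2 _ hz e1 e2 (2 ^ ((36 * a + 4) * n) - 1) _ a1 a3 fun A hA eA J hJ eJ => by
    have h5 : Λ (D * bil m A J) = 0 := by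
      simp [Λ, LinearMap.mem_ker.1 (h3 (Submodule.subset_span
        ⟨A, J, hA, hJ, a2 A eA, a4 J eJ, rfl⟩))]
    rw [← nsmul_eq_mul, map_nsmul, smul_eq_zero_iff_right hD, bil, map_sum] at h5
    rw [← h5]
    refine sum_congr rfl fun p _ => ?_
    rw [map_sum]
    have e : ∀ (k : ℤ) z, Λ (k * z) = k * Λ z := fun k z => by
      rw [← zsmul_eq_mul, map_zsmul, zsmul_eq_mul]
    exact sum_congr rfl fun p _ => by rw [← df_map, mul_comm (df _ _ _), e, e, mul_comm (Λ _)]
  have h5 : 1 ≤ 2 ^ ((36 * a + 4) * n) := Nat.one_le_two_pow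
  have h6 : 2 ^ (2 * n) * 2 ^ (9 * (q * n) * a) * (2 ^ ((36 * a + 4) * n) - 1) + 1 ≤
      2 ^ ((2 + 9 * q * a + (36 * a + 4)) * n) := by
    rw [show (2 + 9 * q * a + (36 * a + 4)) * n = 2 * n + 9 * (q * n) * a + (36 * a + 4) * n by
      ring, pow_add, pow_add]
    conv_rhs => rw [← Nat.sub_add_cancel h5, mul_add, mul_one]
    exact Nat.add_le_add_left (Nat.succ_le_of_lt (by positivity)) _
  rw [Nat.sub_add_cancel h5] at h4
  have h7 := h4.trans (Nat.pow_le_pow_left h6 _)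
  rw [← pow_mul, ← pow_mul, Nat.pow_le_pow_iff_right one_lt_two] at h7
  simp only [Fintype.card_prod, Fintype.card_fin] at h7
  have h8 : 0 < n := by nlinarith
  have h9 : (36 * a + 4) * q ≤ 2 * (2 + 9 * q * a + (36 * a + 4)) :=
    Nat.le_of_mul_le_mul_right (c := q * n * n) (by
      nlinarith [Nat.zero_le ((36 * a + 4) * n * (q * q))]) (by positivity)
  nlinarith [Nat.mul_le_mul_left a hq]

theorem main2 {g δ : ℕ} (hg : 2 ≤ g) (h : ∀ j < 4 * g + 3, finrank ℚ (ZZ j) ≤ δ) :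
    2 ^ g ≤ 4 * (248 * (g + 1) * ((4 * g + 3) * δ + 1 + 1)) := by
  obtain ⟨c, m, hr, h0, hc, hm⟩ := exists_mom
  obtain ⟨E, hE, hE1, hE2, hE3⟩ := span_dim2 _ h
  have hq : 4 ≤ 2 ^ g := by simpa using Nat.pow_le_pow_right two_pos hg
  have hH : 2 ^ g * 2 ^ g = 2 ^ (2 * g) := by ring
  have hN : 4 * (2 ^ g * 2 ^ g) = 2 ^ (2 * g + 2) := by ring
  generalize 2 ^ g = q at *
  generalize (4 * g + 3) * δ + 1 = d at *
  have hq0 : 0 < q * q := by positivity
  let θ : Fin (q * q) × Fin (4 * (q * q)) → ℂ := fun p => c p.1 p.2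
  have hs : ∀ v < q * q, ∀ w < 4 * (q * q), v.size + w.size < 4 * g + 3 := fun v hv w hw => by
    have := Nat.size_le.2 (hH ▸ hv)
    have := Nat.size_le.2 (hN ▸ hw)
    omega
  obtain ⟨c1, hc0, hc1⟩ := siegel θ d ((Submodule.finrank_mono (Submodule.span_le.2 (by
    rintro _ ⟨⟨v, w⟩, rfl⟩
    by_cases e : (v : ℕ) ≠ 0 ∨ (w : ℕ) ≠ 0
    · exact hE3 _ (hs v v.2 w w.2) (hc v w e)
    · push Not at e
      simpa [θ, e.1, e.2, h0] using hE2))).trans hE1)
    (Submodule.subset_span ⟨(⟨0, hq0⟩, ⟨0, by omega⟩), by simp [θ, h0]⟩)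
  obtain ⟨C, hC, hC1⟩ := bil_small hm (4 * (q * q))
  have key : ∀ n, 40 * (q * q) ≤ n →
      1 ≤ c1 * (4 * C ^ 2) * (2 ^ (248 * (g + 1) * (d + 1)) * (5 / 6 : ℝ) ^ q) ^ n := fun n hn => by
    have hP : 4 * (q * q) * (n + 1) ≤ 2 ^ (2 * n) := by
      rw [two_mul, pow_add]
      exact Nat.mul_le_mul (le_trans (by omega) n.lt_two_pow_self.le) n.lt_two_pow_self
    have hP' : ((4 * (q * q) : ℕ) : ℝ) * (n + 1) ≤ 2 ^ (2 * n) := by exact_mod_cast hP
    have hP2 : ((q * q : ℕ) : ℝ) * (n + 1) ≤ 2 ^ (2 * n) := by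
      exact_mod_cast le_trans (by nlinarith) hP
    have hL : (Nat.lcmUpto (2 * n + 1) : ℝ) ≤ 2 ^ (24 * n) := by
      exact_mod_cast (lcm_le (2 * n + 1)).trans (Nat.pow_le_pow_right two_pos (by omega))
    have hK : (2 * ((2 * n + 1 : ℕ) : ℝ) + 3) ≤ 2 ^ (2 * n) := by
      exact_mod_cast le_trans (by nlinarith) hP
    set X := 2 ^ ((36 * (2 * g + 2) + 4) * n) - 1
    have hX : (X : ℝ) ≤ 2 ^ ((72 * g + 76) * n) := by
      exact_mod_cast (Nat.sub_le _ _).trans_eq (by ring)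
    have h1 := hc1 (2 ^ (248 * (g + 1) * n))
      (4 * C ^ 2 * (2 ^ (248 * (g + 1) * n) * (5 / 6) ^ (q * n)))
      (one_le_pow₀ one_le_two) (by positivity) _ ?_
      (one_mem2 (D := Nat.lcmUpto (2 * n + 1) ^ (4 * g + 3)) hr h0 hq hN.le hn hP
        (pow_ne_zero _ (Nat.lcmUpto_ne_zero _)))
    · refine h1.trans_eq ?_
      rw [mul_pow, ← pow_mul, ← pow_mul, ← pow_mul, show 248 * (g + 1) * (d + 1) * n =
        248 * (g + 1) * n * d + 248 * (g + 1) * n by ring, pow_add]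
      ring
    rintro _ ⟨A, J, hA, hJ, eA, eJ, rfl⟩
    have hA' : ∀ p, (|A p| : ℝ) ≤ X := fun p => by exact_mod_cast hA p
    have hJ' : ∀ p, (|J p| : ℝ) ≤ X := fun p => by exact_mod_cast hJ p
    constructor
    · have h2 := hC1 (q * q) (by omega) n (q * n) X A J (by positivity) hA' hJ' eA eJ
      have h3 : (3 : ℝ) ^ n ≤ 2 ^ (2 * n) := by
        rw [pow_mul]; gcongr; norm_num
      rw [norm_mul, Complex.norm_natCast, Nat.cast_pow]
      calc _ ≤ (2 ^ (24 * n)) ^ (4 * g + 3) * (4 * ((5 / 6) ^ (q * n) *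
            (2 ^ (2 * n) * (2 ^ (2 * n) * C * 2 ^ ((72 * g + 76) * n))) ^ 2)) := by
            refine mul_le_mul (by gcongr) (h2.trans ?_) (norm_nonneg _) (by positivity)
            gcongr
        _ = 4 * C ^ 2 * (2 ^ ((240 * g + 232) * n) * (5 / 6 : ℝ) ^ (q * n)) := by ring
        _ ≤ _ := by
            gcongr
            · exact one_le_two
            · omega
    · have h2 := Hg.sum (s := univ) (θ := θ) fun (p : Fin (q * q) × Fin (n + 1)) _ =>
        Hg.sum (s := univ) (θ := θ)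
          (Q := X * (X * (2 ^ n * (2 ^ (24 * n) * 2 ^ (2 * n)) ^ (4 * g + 3))))
          fun (r : Fin (4 * (q * q)) × Fin (n + 1)) _ =>
            (((df_hg (fun i hi => integ2 hr (L := 2 * n + 1)
              (fun v hv w hw => hg_base (θ := θ) (⟨v, hv⟩, ⟨w, hw⟩)) _ p.1 p.1.2 r.1 r.1.2
              (hs _ p.1.2 _ r.1.2) i hi) p.2 r.2 (by omega)).mul (J r)).mul (A p)).mono
              (by
                have := Nat.le_of_lt_succ p.2.2
                gcongr
                exacts [hA' p, hJ' r, one_le_two]) rfl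
      obtain ⟨l, h3, h4⟩ := h2
      refine ⟨l, fun i => (single_le_sum (f := fun i => (|l i| : ℝ)) (fun _ _ => abs_nonneg _)
        (mem_univ i)).trans (h3.trans ?_), ?_⟩
      · calc _ ≤ 2 ^ (2 * n) * (2 ^ (2 * n) * (2 ^ ((72 * g + 76) * n) * (2 ^ ((72 * g + 76) * n) *
              (2 ^ n * (2 ^ (24 * n) * 2 ^ (2 * n) : ℝ) ^ (4 * g + 3))))) := by
              gcongr
              · simpa using hP2
              · simpa using hP'
          _ = 2 ^ ((248 * g + 235) * n) := by ring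
          _ ≤ _ := by
              gcongr
              · exact one_le_two
              · omega
      · rw [← h4, bil, mul_sum]
        refine sum_congr rfl fun p _ => ?_
        rw [mul_sum]
        exact sum_congr rfl fun p _ => by push_cast; ring
  have h1 : (1 : ℝ) ≤ 2 ^ (248 * (g + 1) * (d + 1)) * (5 / 6) ^ q := by
    by_contra h1
    have h2 := (tendsto_pow_atTop_nhds_zero_of_lt_one (by positivity) (not_le.1 h1)).const_mul
      (c1 * (4 * C ^ 2))
    have h3 := ge_of_tendsto h2 (eventually_atTop.2 ⟨_, key⟩)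
    norm_num at h3
  have h2 : (2 : ℝ) ^ q ≤ 2 ^ (4 * (248 * (g + 1) * (d + 1))) := by
    calc (2 : ℝ) ^ q ≤ 2 ^ q * (2 ^ (248 * (g + 1) * (d + 1)) * (5 / 6) ^ q) ^ 4 :=
          le_mul_of_one_le_right (by positivity) (one_le_pow₀ h1)
      _ = 2 ^ (4 * (248 * (g + 1) * (d + 1))) * (2 * (5 / 6) ^ 4) ^ q := by
          rw [mul_pow, mul_pow, ← pow_mul, ← pow_mul, ← pow_mul, mul_comm q, mul_comm _ 4,
            mul_left_comm]
      _ ≤ _ := mul_le_of_le_one_right (by positivity) (pow_le_one₀ (by norm_num) (by norm_num))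
  exact (pow_le_pow_iff_right₀ one_lt_two).1 h2

theorem dim_lower2 {w : ℕ} (hw : 2 ≤ w) : 2 ^ (w / 4) ≤ 1000 * w ^ 2 * finrank ℚ (ZZ w) := by
  have h4 := ZZ_pos hw
  rcases lt_or_ge w 12 with hk | hk
  · calc _ ≤ 2 ^ 2 := Nat.pow_le_pow_right two_pos (by omega)
      _ ≤ _ := by nlinarith
  obtain ⟨g, h5, h6, h7⟩ : ∃ g, 2 ≤ g ∧ 4 * g + 4 ≤ w ∧ w / 4 = g + 1 :=
    ⟨w / 4 - 1, by omega, by omega, by omega⟩
  have h8 := main2 h5 fun j hj => (ZZ_mono j (w - 2 - j)).trans_eq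
    (by rw [show j + 2 + (w - 2 - j) = w by omega])
  generalize finrank ℚ (ZZ w) = γ at *
  have h9 : (4 * (g + 1)) ^ 2 * γ ≤ w ^ 2 * γ := by gcongr; omega
  have h10 : g + 1 ≤ (g + 1) * ((g + 1) * γ) := Nat.le_mul_of_pos_right _ (by positivity)
  rw [h7, pow_succ]
  nlinarith

end Pool.Agent.Lib.MP_12eca1_ag.MZ
end

-- part Pool.Agent.Lib.MP_12eca1_ag.Y.Root
section

/-! The unipotent connection on the tree of words in `s` letters. -/

namespace Pool.Agent.Lib.MP_12eca1_ag.MY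

open Polynomial Finset Pool.Agent.Lib.MP_dda4e9_nt.LB

variable (s : ℕ) (T : ℂ[X]) (P : ℕ → ℂ[X])

/-- the letters of the children of a node have distinct simple poles -/
def Tr : Prop := P 0 = 0 ∧ ∀ v ≠ 0, ∃ r, T = (X - C r) * P v ∧ (P v).eval r ≠ 0 ∧
  ∀ v', v' / s = v / s → v' ≠ v → (P v').eval r = 0

/-- the connection -/
noncomputable def DS (A : ℕ → ℂ[X]) (u : ℕ) : ℂ[X] :=
  T * derivative (A u) + ∑ i ∈ range s, P (s * u + i) * A (s * u + i)

variable {s T P}

theorem DS_supp (hs : 0 < s) {A : ℕ → ℂ[X]} {H : ℕ} (h : ∀ u, H ≤ u → A u = 0) (u : ℕ)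
    (hu : H ≤ u) : DS s T P A u = 0 := by
  rw [DS, h u hu, sum_eq_zero fun i _ => by rw [h _ (by nlinarith), mul_zero]]
  simp

theorem root_memS (hs : 2 ≤ s) (hT : T ≠ 0) (hP : Tr s T P)
    (V : Submodule ℂ[X] (ℕ → ℂ[X])) (hD : ∀ A ∈ V, DS s T P A ∈ V) (H : ℕ) :
    ∀ A ∈ V, A ≠ 0 → (∀ u, H ≤ u → A u = 0) → ∃ p ≠ 0, Pi.single 0 p ∈ V := by
  have lt : ∀ u i, s * u + i ≠ 0 → u < s * u + i := fun u i h => by
    rcases Nat.eq_zero_or_pos u with rfl | hu
    · omega
    · nlinarith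
  induction H with
  | zero => exact fun A _ h hs => absurd (funext fun u => hs u u.zero_le) h
  | succ H ih =>
    intro A hA hne hs'
    by_cases ha : A H = 0
    · exact ih A hA hne fun u hu => by
        rcases hu.eq_or_lt with rfl | hu
        exacts [ha, hs' u hu]
    by_cases h2 : A H • DS s T P A - (T * derivative (A H)) • A = 0
    swap
    · refine ih _ (V.sub_mem (V.smul_mem _ (hD A hA)) (V.smul_mem _ hA)) h2 fun u hu => ?_
      rcases hu.eq_or_lt with rfl | hu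
      · simp only [Pi.sub_apply, Pi.smul_apply, smul_eq_mul, DS]
        rw [sum_eq_zero fun i _ => ?_]
        · ring
        · by_cases h : s * H + i = 0
          · rw [h, hP.1, zero_mul]
          · rw [hs' _ (lt H i h), mul_zero]
      · simp [DS_supp (show 0 < s by omega) hs' u hu, hs' u hu]
    have h3 : ∀ u, A H * DS s T P A u = T * derivative (A H) * A u :=
      fun u => sub_eq_zero.1 (congrFun h2 u)
    rcases Nat.eq_zero_or_pos H with rfl | hH
    · refine ⟨A 0, ha, ?_⟩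
      convert hA
      ext1 u
      cases u with
      | zero => simp
      | succ u => simp [hs' (u + 1) (by omega)]
    exfalso
    have key : ∀ u, (∀ v, u < v → ∃ c, A v = C c * A H) →
        ∀ i < s, P (s * u + i) * A (s * u + i) = 0 := fun u hu i hi => by
      by_cases h : s * u + i = 0
      · rw [h, hP.1, zero_mul]
      choose! c hc using hu
      obtain ⟨r, h4, h5, h6⟩ := hP.2 _ h
      have h7 : ∑ j ∈ range s, P (s * u + j) * A (s * u + j) =
          A H * ∑ j ∈ range s, C (c (s * u + j)) * P (s * u + j) := by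
        rw [mul_sum]
        refine sum_congr rfl fun j _ => ?_
        by_cases h' : s * u + j = 0
        · simp [h', hP.1]
        · rw [hc _ (lt u j h')]; ring
      have h8 := resid r (S := P (s * u + i)) (p := A u)
        (q := -∑ j ∈ range s, C (c (s * u + j)) * P (s * u + j)) ha h5 (by
          have := h3 u
          rw [DS, h7] at this
          rw [← h4]
          linear_combination this)
      rw [eval_neg, eval_finsetSum, sum_eq_single i (fun j hj hji => by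
        rw [eval_mul, h6 _ (by
          rw [Nat.mul_add_div (by omega), Nat.mul_add_div (by omega),
            Nat.div_eq_of_lt (mem_range.1 hj), Nat.div_eq_of_lt hi]) (by omega), mul_zero])
        (by simp [hi])] at h8
      simp only [eval_mul, eval_C, neg_eq_zero, mul_eq_zero, h5, or_false] at h8
      rw [hc _ (lt u i h), h8]
      simp
    have all : ∀ k u, H + 1 ≤ u + k → ∃ c, A u = C c * A H := fun k => by
      induction k with
      | zero => exact fun u hu => ⟨0, by simp [hs' u hu]⟩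
      | succ k ih =>
        intro u hu
        have := h3 u
        rw [DS, sum_eq_zero fun i hi => key u (fun v hv => ih v (by omega)) i (mem_range.1 hi),
          add_zero] at this
        exact propor ha (mul_left_cancel₀ hT (by linear_combination this))
    have h9 := key (H / s) (fun v _ => all (H + 1) v (by omega)) (H % s) (Nat.mod_lt _ (by omega))
    rw [Nat.div_add_mod] at h9
    obtain ⟨r, -, h5, -⟩ := hP.2 H hH.ne'
    exact h5 (by simp [(mul_eq_zero.1 h9).resolve_right ha])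

theorem reindexS (hs : 0 < s) {M : Type*} [AddCommMonoid M] (F : ℕ → ℕ → M) (H : ℕ)
    (h : ∀ v u, H ≤ v → F v u = 0) :
    ∑ v ∈ range H, F v (v / s) = ∑ u ∈ range H, ∑ i ∈ range s, F (s * u + i) u := by
  have h1 : ∀ K, ∑ v ∈ range (s * K), F v (v / s) =
      ∑ u ∈ range K, ∑ i ∈ range s, F (s * u + i) u := fun K => by
    induction K with
    | zero => simp
    | succ K ih =>
      rw [Nat.mul_succ, sum_range_add, ih, sum_range_succ]
      refine congrArg _ (sum_congr rfl fun i hi => ?_)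
      rw [Nat.mul_add_div hs, Nat.div_eq_of_lt (mem_range.1 hi), add_zero]
  rw [← h1]
  exact sum_subset (range_subset_range.2 (by nlinarith)) fun v _ hv => h v _ (by simpa using hv)

theorem deg_DS {κ : ℕ} (hT : T.natDegree ≤ κ) (hP : ∀ v, (P v).natDegree ≤ κ) {A : ℕ → ℂ[X]}
    {k : ℕ} (h : ∀ v, (A v).natDegree ≤ k) (v : ℕ) : (DS s T P A v).natDegree ≤ k + κ := by
  refine natDegree_add_le_of_degree_le (natDegree_mul_le.trans ?_)
    (natDegree_sum_le_of_forall_le _ _ fun i _ => natDegree_mul_le.trans ?_)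
  · have := natDegree_derivative_le (A v)
    have := h v
    omega
  · have := h (s * v + i)
    have := hP (s * v + i)
    omega

end Pool.Agent.Lib.MP_12eca1_ag.MY
end

-- part Pool.Agent.Lib.MP_12eca1_ag.Y.Zero
section

/-! The zero estimate: the matrix of the moments has full rank. -/

namespace Pool.Agent.Lib.MP_12eca1_ag.MY

open Polynomial Finset Matrix Pool.Agent.Lib.MP_dda4e9_nt.LB Pool.Agent.Lib.MP_12eca1_ag.MZ

/-- the differential system of the moment series -/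
structure Dat (s κ : ℕ) (T : ℂ[X]) (P R : ℕ → ℂ[X]) (τ : ℕ → ℕ → ℂ[X])
    (m : ℕ → ℕ → ℕ → ℂ) : Prop where
  hs : 2 ≤ s
  h0 : T.eval 0 ≠ 0
  hP : Tr s (X * T) P
  hR : Tr s (X * T) R
  dT : (X * T).natDegree ≤ κ
  dT1 : T.natDegree ≤ κ
  dP : ∀ v, (P v).natDegree ≤ κ
  dR : ∀ v, (R v).natDegree ≤ κ
  hτ : (τ 0 0).eval 0 ≠ 0
  ode : ∀ v w, ph T * eu (ser fun j => m j v w) = ph (P v) * ser (fun j => m j (v / s) w) +
    ph (R w) * ser (fun j => m j v (w / s)) + ph (τ v w)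

variable (s : ℕ) (T : ℂ[X]) (P R : ℕ → ℂ[X]) (τ : ℕ → ℕ → ℂ[X]) (H N : ℕ)

/-- the connection on pairs -/
noncomputable def st3 (M : PP) : PP :=
  (DS s (X * T) P M.1, fun w => X * T * derivative (M.2 w) - R w * M.2 (w / s) -
    ∑ v ∈ range H, M.1 v * τ v w)

/-- the first component of the dual connection -/
noncomputable def du3 (a b : ℕ → ℂ[X]) (v : ℕ) : ℂ[X] :=
  X * T * derivative (a v) - P v * a (v / s) + ∑ w ∈ range N, τ v w * b w

variable {s T P R τ H N} {κ : ℕ} {m : ℕ → ℕ → ℕ → ℂ}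

theorem rm_st3 (h : Dat s κ T P R τ m) {M : PP} (hM : ∀ v, H ≤ v → M.1 v = 0) (w : ℕ) :
    rm m H (st3 s T P R τ H M) w = ph T * eu (rm m H M w) - ph (R w) * rm m H M (w / s) := by
  have e1 := reindexS (show 0 < s by have := h.hs; omega)
    (fun v u => ph (P v * M.1 v) * ser fun j => m j u w) H fun v u hv => by simp [hM v hv]
  have e2 : ∀ v, ph T * eu (ph (M.1 v) * ser fun j => m j v w) =
      ph (X * T * derivative (M.1 v)) * ser (fun j => m j v w) +
      ph (P v * M.1 v) * ser (fun j => m j (v / s) w) +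
      ph (R w) * (ph (M.1 v) * ser fun j => m j v (w / s)) + ph (M.1 v * τ v w) := by
    intro v
    rw [eu_mul]
    have := h.ode v w
    simp only [map_mul] at this ⊢
    linear_combination ph (M.1 v) * this
  rw [rm, rm, rm, eu_sub, eu_sum, eu_ph, mul_sub (ph _), mul_sub (ph _), mul_sum, mul_sum]
  simp only [e2, sum_add_distrib, e1]
  simp only [st3, DS, map_add, add_mul, map_sub, map_sum, sum_add_distrib, sum_mul]
  simp only [map_mul]
  ring

theorem pr_st3 (hs : 0 < s) {M : PP} (hM : ∀ v, H ≤ v → M.1 v = 0) (a : ℕ → ℂ[X])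
    {b : ℕ → ℂ[X]} (hb : ∀ w, N ≤ w → b w = 0) :
    X * T * derivative (pr H N M a b) = pr H N (st3 s T P R τ H M) a b +
      pr H N M (du3 s T P τ N a b) (DS s (X * T) R b) := by
  have e1 := reindexS hs (fun v u => P v * M.1 v * a u) H fun v u hv => by simp [hM v hv]
  have e2 := reindexS hs (fun w u => R w * b w * M.2 u) N fun v u hv => by simp [hb v hv]
  have e3 : ∑ w ∈ range N, (∑ v ∈ range H, M.1 v * τ v w) * b w =
      ∑ v ∈ range H, M.1 v * ∑ w ∈ range N, τ v w * b w := by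
    simp only [sum_mul, mul_sum, mul_assoc]
    exact sum_comm
  have e4 : ∑ v ∈ range H, (DS s (X * T) P M.1 v * a v + M.1 v * du3 s T P τ N a b v) =
      ∑ v ∈ range H, (X * T * derivative (M.1 v * a v) +
        ∑ i ∈ range s, P (s * v + i) * M.1 (s * v + i) * a v -
        P v * M.1 v * a (v / s) + M.1 v * ∑ w ∈ range N, τ v w * b w) :=
    sum_congr rfl fun v _ => by simp only [DS, du3, derivative_mul, ← sum_mul]; ring
  have e5 : ∑ w ∈ range N, ((st3 s T P R τ H M).2 w * b w + M.2 w * DS s (X * T) R b w) =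
      ∑ w ∈ range N, (X * T * derivative (M.2 w * b w) +
        ∑ i ∈ range s, R (s * w + i) * b (s * w + i) * M.2 w -
        R w * b w * M.2 (w / s) - (∑ v ∈ range H, M.1 v * τ v w) * b w) :=
    sum_congr rfl fun v _ => by simp only [DS, st3, derivative_mul, ← sum_mul]; ring
  rw [sum_add_distrib, sum_add_distrib, sum_sub_distrib, sum_add_distrib, ← e1] at e4
  rw [sum_add_distrib, sum_sub_distrib, sum_sub_distrib, sum_add_distrib, ← e2, e3] at e5
  simp only [pr, map_add, map_sum, mul_add, mul_sum] at e4 e5 ⊢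
  change _ = ∑ v ∈ range H, DS s (X * T) P M.1 v * a v + _ + _
  linear_combination -e4 - e5

theorem ann3 (h : Dat s κ T P R τ m) (hH : 0 < H) (hN : 0 < N) (M : ℕ → PP)
    (hM : ∀ k, M (k + 1) = st3 s T P R τ H (M k)) (hs : ∀ k v, H ≤ v → (M k).1 v = 0)
    (hne : (M 0).1 ≠ 0) (a b : ℕ → ℂ[X]) (hb : ∀ w, N ≤ w → b w = 0)
    (hab : ∀ k, pr H N (M k) a b = 0) : b = 0 := by
  by_contra hb0
  have hs0 : 0 < s := by have := h.hs; omega
  have hT : X * T ≠ 0 := mul_ne_zero X_ne_zero fun e => h.h0 (by simp [e])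
  -- a multiple of the root among the first components
  obtain ⟨p, hp, hpm⟩ := root_memS h.hs hT h.hP
    (Submodule.span ℂ[X] (Set.range fun k => (M k).1))
    (fun A hA => by
      induction hA using Submodule.span_induction with
      | mem A hA =>
        obtain ⟨k, rfl⟩ := hA
        exact Submodule.subset_span ⟨k + 1, by simp only [hM, st3]⟩
      | zero =>
        convert Submodule.zero_mem _
        ext1 u; simp [DS]
      | add A B _ _ iA iB =>
        convert Submodule.add_mem _ iA iB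
        ext1 u; simp only [DS, Pi.add_apply, map_add, mul_add, sum_add_distrib]; ring
      | smul q A hA iA =>
        convert Submodule.add_mem _ (Submodule.smul_mem _ q iA)
          (Submodule.smul_mem _ (X * T * derivative q) hA)
        ext1 u
        simp only [DS, Pi.add_apply, Pi.smul_apply, smul_eq_mul, derivative_mul,
          mul_left_comm _ q, ← mul_sum]
        ring)
    H _ (Submodule.subset_span ⟨0, rfl⟩) hne (hs 0)
  have key : ∀ a, (∀ k, pr H N (M k) a 0 = 0) → a 0 = 0 := fun a ha => by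
    have : ∀ A ∈ Submodule.span ℂ[X] (Set.range fun k => (M k).1),
        ∑ v ∈ range H, A v * a v = 0 := fun A hA => by
      induction hA using Submodule.span_induction with
      | mem A hA => obtain ⟨k, rfl⟩ := hA; simpa [pr] using ha k
      | zero => simp
      | add A B _ _ iA iB => simp [add_mul, sum_add_distrib, iA, iB]
      | smul q A _ iA => simp [mul_assoc, ← mul_sum, iA]
    have h2 := this _ hpm
    rw [sum_eq_single 0 (fun v _ hv => by simp [hv]) (by simp [hH.ne'])] at h2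
    simpa [hp] using h2
  have lin : ∀ (k) (p q : ℂ[X]) (a a' b b' : ℕ → ℂ[X]), pr H N (M k) (p • a + q • a')
      (p • b + q • b') = p * pr H N (M k) a b + q * pr H N (M k) a' b' := by
    intro k p q a a' b b'
    simp only [pr, Pi.add_apply, Pi.smul_apply, smul_eq_mul, mul_add, sum_add_distrib, mul_sum,
      mul_left_comm]
    ring
  have dual : ∀ a b, (∀ w, N ≤ w → b w = 0) → (∀ k, pr H N (M k) a b = 0) →
      ∀ k, pr H N (M k) (du3 s T P τ N a b) (DS s (X * T) R b) = 0 := fun a b hb h k => by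
    have := pr_st3 (T := T) (P := P) (R := R) (τ := τ) hs0 (hs k) a hb
    rw [← hM, h, h] at this
    simpa using this.symm
  let V : Submodule ℂ[X] (ℕ → ℂ[X]) :=
    { carrier := {b | (∀ w, N ≤ w → b w = 0) ∧ ∃ a, ∀ k, pr H N (M k) a b = 0}
      add_mem' := by
        rintro b b' ⟨h1, a, h2⟩ ⟨h3, a', h4⟩
        exact ⟨fun w hw => by simp [h1 w hw, h3 w hw], a + a', fun k => by
          simpa [h2, h4] using lin k 1 1 a a' b b'⟩
      zero_mem' := ⟨fun _ _ => rfl, 0, fun k => by simp [pr]⟩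
      smul_mem' := by
        rintro q b ⟨h1, a, h2⟩
        exact ⟨fun w hw => by simp [h1 w hw], q • a, fun k => by
          simpa [h2] using lin k q 0 a a b b⟩ }
  obtain ⟨q, hq, hq1, a, hq2⟩ := root_memS h.hs hT h.hR V
    (fun b ⟨h1, a, h2⟩ => ⟨DS_supp hs0 h1, _, dual a b h1 h2⟩) N b ⟨hb, a, hab⟩ hb0 hb
  have h3 : q • DS s (X * T) R (Pi.single 0 q) + (-(X * T * derivative q)) • Pi.single 0 q =
      (0 : ℕ → ℂ[X]) := by
    ext1 u
    have e : ∑ i ∈ range s, R (s * u + i) * (Pi.single 0 q : ℕ → ℂ[X]) (s * u + i) = 0 :=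
      sum_eq_zero fun i _ => by
        by_cases hu : s * u + i = 0
        · rw [hu, h.hR.1, zero_mul]
        · rw [Pi.single_eq_of_ne hu, mul_zero]
    by_cases hu : u = 0
    · subst hu
      simp only [Pi.add_apply, Pi.smul_apply, smul_eq_mul, DS, e, Pi.single_eq_same, Pi.zero_apply]
      ring
    · simp [hu, DS, e]
  have h4 := key (q • du3 s T P τ N a (Pi.single 0 q) + (-(X * T * derivative q)) • a) fun k => by
    rw [← h3, lin, dual a _ hq1 hq2, hq2]; simp
  simp only [Pi.add_apply, Pi.smul_apply, smul_eq_mul, du3] at h4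
  rw [sum_eq_single 0 (fun v _ hv => by simp [hv]) (by simp [hN.ne'])] at h4
  have h5 := resid 0 (S := T) (p := a 0) (q := -τ 0 0) hq h.h0 (by
      simp only [h.hP.1, Pi.single_eq_same] at h4
      simp only [map_zero, sub_zero]
      linear_combination h4)
  exact h.hτ (by simpa using h5)

theorem zero_est3 (h : Dat s κ T P R τ m) {n : ℕ} (hn : 13 * κ * H ≤ n) :
    LinearIndependent ℂ fun (p : Fin H × Fin (n + 1)) (q : Fin (4 * H) × Fin (n + 1)) =>
      df (fun i => m i p.1 q.1) p.2 q.2 := by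
  classical
  have hs0 : 0 < s := by have := h.hs; omega
  rw [Fintype.linearIndependent_iff]
  intro g hg
  by_contra hg0
  push Not at hg0
  obtain ⟨⟨v0, j0⟩, hg0⟩ := hg0
  have hH : 0 < H := v0.pos
  let A : ℕ → ℂ[X] := fun v => if hv : v < H then
    ∑ j : Fin (n + 1), C (g (⟨v, hv⟩, j)) * (1 - X) ^ (j : ℕ) else 0
  have hA : A ≠ 0 := fun e => by
    have := congrArg (fun p : ℂ[X] => (p.comp (1 - X)).coeff j0) (congrFun e v0)
    simp [A, Fin.val_inj, Polynomial.sum_comp] at this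
    exact hg0 this
  have hAd : ∀ v, (A v).natDegree ≤ n := fun v => by
    simp only [A]
    split_ifs
    · refine natDegree_sum_le_of_forall_le _ _ fun j _ =>
        (natDegree_C_mul_le _ _).trans (natDegree_pow_le.trans ?_)
      have h1 : (1 - X : ℂ[X]).natDegree ≤ 1 := by compute_degree
      have := j.2
      nlinarith
    · simp
  have hB : ∀ w, ∃ b, w < 4 * H →
      Od (n + 2) (∑ v ∈ range H, ph (A v) * ser (fun j => m j v w) - ph b) := fun w => by
    choose b hb using fun (v : Fin H) (j : Fin (n + 1)) => df_ser (fun i => m i v w) j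
    refine ⟨∑ v, ∑ j, C (g (v, j)) * b v j, fun hw => ?_⟩
    have e : ∑ v ∈ range H, ph (A v) * ser (fun j => m j v w) =
        ph (∑ v, ∑ j, C (g (v, j)) * b v j) +
          ser fun i => ∑ v : Fin H, ∑ j : Fin (n + 1), g (v, j) * df (fun i => m i v w) j i := by
      rw [sum_range, ser_sum, map_sum, ← sum_add_distrib]
      refine sum_congr rfl fun v _ => ?_
      simp only [A, dif_pos v.2, map_sum, sum_mul, ser_sum, ← sum_add_distrib, ser_mul]
      exact sum_congr rfl fun j _ => by rw [map_mul, mul_assoc, hb, map_mul, mul_add]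
    rw [e, add_sub_cancel_left]
    refine (od_ser (e := n + 1) fun i hi => ?_).mono (by push_cast; omega)
    simpa [Finset.sum_apply, Fintype.sum_prod_type] using congrFun hg (⟨w, hw⟩, ⟨i, hi⟩)
  choose B hB using hB
  let M : ℕ → PP := fun k => (st3 s T P R τ H)^[k] (A, B)
  have hM : ∀ k, M (k + 1) = st3 s T P R τ H (M k) := fun k => Function.iterate_succ_apply' _ _ _
  have hs : ∀ k v, H ≤ v → (M k).1 v = 0 := fun k => by
    induction k with
    | zero => exact fun v hv => dif_neg (by omega)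
    | succ k ih => rw [hM]; exact DS_supp hs0 ih
  have hd : ∀ k v, ((M k).1 v).natDegree ≤ n + κ * k := fun k => by
    induction k with
    | zero => exact hAd
    | succ k ih => rw [hM, Nat.mul_succ, ← add_assoc]; exact deg_DS (s := s) h.dT h.dP ih
  have ho : ∀ (k : ℕ) w, w < 4 * H → Od (n + 2 - κ * k) (rm m H (M k) w) := fun k => by
    induction k with
    | zero => exact fun w hw => (hB w hw).mono (by simp)
    | succ k ih =>
      intro w hw
      rw [hM, rm_st3 h (hs k)]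
      refine Od.sub (((od_ph h.dT1).mul (ih w hw).eu).mono ?_)
        (((od_ph (h.dR w)).mul (ih _ ((Nat.div_le_self _ _).trans_lt hw))).mono ?_)
      · push_cast; linarith
      · push_cast; linarith
  let ρ : ℕ → Fin H ⊕ Fin (4 * H) → ℂ[X] := fun k =>
    Sum.elim (fun v => (M k).1 v) fun w => (M k).2 w
  have hρ : ∀ k (c : Fin H ⊕ Fin (4 * H) → ℂ[X]), ∑ i, ρ k i * c i = pr H (4 * H) (M k)
      (fun v => if hv : v < H then c (.inl ⟨v, hv⟩) else 0)
      (fun w => if hw : w < 4 * H then c (.inr ⟨w, hw⟩) else 0) := fun k c => by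
    simp [pr, ρ, Fintype.sum_sum_type, sum_range]
  obtain ⟨j, hj, hj2⟩ : ∃ j ≤ 5 * H, ∀ a b, (∀ i < j, pr H (4 * H) (M i) a b = 0) →
      pr H (4 * H) (M j) a b = 0 := by
    have h2 : ¬ LinearIndependent ℂ[X] fun i : Fin (5 * H + 1) => ρ i := fun h2 => by
      have := h2.fintype_card_le_finrank
      simp at this
      omega
    rw [Fintype.not_linearIndependent_iff] at h2
    obtain ⟨c, hc, hc0⟩ := h2
    obtain ⟨j, hj1, hj2⟩ := exists_max_image (univ.filter fun i => c i ≠ 0) id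
      (hc0.imp fun i hi => by simpa using hi)
    refine ⟨j, Nat.le_of_lt_succ j.2, fun a b hab => ?_⟩
    have e : ∀ k, pr H (4 * H) (M k) a b =
        ∑ i, ρ k i * Sum.elim (fun v : Fin H => a v) (fun w : Fin (4 * H) => b w) i := fun k => by
      simp [pr, ρ, Fintype.sum_sum_type, sum_range]
    have e2 : ∑ i, c i * pr H (4 * H) (M i) a b = 0 := by
      simp only [e, mul_sum, ← mul_assoc]
      rw [sum_comm]
      refine sum_eq_zero fun l _ => ?_
      have := congrFun hc l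
      simp only [Finset.sum_apply, Pi.smul_apply, smul_eq_mul, Pi.zero_apply] at this
      rw [← sum_mul, this, zero_mul]
    rw [sum_eq_single j (fun i _ hi => ?_) (by simp)] at e2
    · exact (mul_eq_zero.1 e2).resolve_left (by simpa using hj1)
    · by_cases hci : c i = 0
      · rw [hci, zero_mul]
      · rw [hab i (lt_of_le_of_ne (hj2 i (by simpa using hci)) fun e => hi (Fin.ext e)), mul_zero]
  have hall : ∀ k a b, (∀ w, 4 * H ≤ w → b w = 0) → (∀ i < j, pr H (4 * H) (M i) a b = 0) →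
      pr H (4 * H) (M k) a b = 0 := fun k => by
    induction k with
    | zero =>
      intro a b _ hab
      rcases Nat.eq_zero_or_pos j with rfl | hj0
      exacts [hj2 a b hab, hab 0 hj0]
    | succ k ih =>
      intro a b hb hab
      have e := pr_st3 (T := T) (P := P) (R := R) (τ := τ) hs0 (hs k) a hb
      rw [← hM, ih a b hb hab, ih _ _ (DS_supp hs0 hb) fun i hi => ?_] at e
      · simpa using e.symm
      · have e' := pr_st3 (T := T) (P := P) (R := R) (τ := τ) hs0 (hs i) a hb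
        rw [← hM, hab i hi, show pr H (4 * H) (M (i + 1)) a b = 0 from ?_] at e'
        · simpa using e'.symm
        · rcases (Nat.succ_le_of_lt hi).eq_or_lt with e | e
          exacts [by rw [show i + 1 = j from e]; exact hj2 a b hab, hab _ e]
  obtain ⟨Q, I, p1, p2, p3, p4⟩ := greedy {r | ∃ i < j, r = ρ i}
  have hz : ∀ i ∈ I, ∀ w, Q.adjugate (.inr w) i = 0 := fun i hi w => by
    have := ann3 h hH (by omega : 0 < 4 * H) M hM hs hA _ _
      (fun w hw => dif_neg (by omega)) fun k => hall k _ _ (fun w hw => dif_neg (by omega))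
        fun l hl => (hρ l fun c => Q.adjugate c i).symm.trans
          ((det_updateRow_eq _ _ _).symm.trans (p4 i hi _ ⟨l, hl, rfl⟩))
    simpa using congrFun this w
  have hI : I.card ≤ H := by
    have h2 : LinearIndependent ℂ[X] fun (i : I) (v : Fin H) => Q.adjugate (.inl v) i := by
      rw [Fintype.linearIndependent_iff]
      intro c hc i
      have e : Q.adjugate *ᵥ (fun i => if hi : i ∈ I then c ⟨i, hi⟩ else 0) = 0 := by
        ext1 l
        simp only [mulVec, dotProduct, Pi.zero_apply]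
        rw [← sum_subset (subset_univ I) fun i _ hi => by simp [hi], ← sum_coe_sort]
        rcases l with v | w
        · simpa [Finset.sum_apply, mul_comm] using congrFun hc v
        · exact sum_eq_zero fun i _ => by rw [hz i i.2, zero_mul]
      have e2 := congrFun (congrArg (fun z => Q *ᵥ z) e) i
      simpa [mulVec_mulVec, mul_adjugate, smul_mulVec, p1] using e2
    simpa using h2.fintype_card_le_finrank
  let U : Matrix (Fin H ⊕ Fin (4 * H)) (Fin H ⊕ Fin (4 * H)) LL :=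
    fromBlocks 1 (Matrix.of fun v w => ser fun j => m j v w) 0 (-1)
  have h3 := od_det (ph.mapMatrix Q * U)
    (fun i => -(κ * (5 * H) : ℕ) - if i ∈ I then (n + 2 : ℤ) else 0)
    (Sum.elim (fun _ => -n) fun _ => n + 2) fun i l => by
      by_cases hi : i ∈ I
      · have : (ph.mapMatrix Q * U) i l = U i l := by
          simp [Matrix.mul_apply, p2 i hi, Pi.single_apply, apply_ite ph]
        rw [this, if_pos hi]
        refine Od.mono (e := 0) ?_ (by
          rcases l with v | w <;> simp only [Sum.elim_inl, Sum.elim_inr] <;> omega)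
        rcases i with v' | w' <;> rcases l with v | w
        · simp only [U, fromBlocks_apply₁₁, Matrix.one_apply]
          split_ifs
          exacts [od_one, od_zero _]
        · exact (od_ser (e := 0) (c := fun j => m j v' w) fun j hj =>
            absurd hj j.not_lt_zero).mono (by simp)
        · exact od_zero _
        · simp only [U, fromBlocks_apply₂₂, Matrix.neg_apply, Matrix.one_apply]
          split_ifs
          exacts [od_one.neg, (od_zero _).neg]
      · obtain ⟨k, hk, e⟩ := p3 i hi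
        have hk2 : κ * k ≤ κ * (5 * H) := Nat.mul_le_mul_left _ (by omega)
        rw [if_neg hi]
        rcases l with v | w
        · have : (ph.mapMatrix Q * U) i (.inl v) = ph ((M k).1 v) := by
            simp [Matrix.mul_apply, Fintype.sum_sum_type, U, e, ρ, Matrix.one_apply]
          rw [this]
          exact (od_ph (hd k v)).mono (by simp only [Sum.elim_inl]; omega)
        · have : (ph.mapMatrix Q * U) i (.inr w) = rm m H (M k) w := by
            simp [Matrix.mul_apply, Fintype.sum_sum_type, U, e, ρ, Matrix.one_apply, rm,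
              sum_range, sub_eq_add_neg, apply_ite (fun z : LL => -z)]
            ring
          rw [this]
          exact (ho k w w.2).mono (by simp only [Sum.elim_inr]; rw [← Nat.cast_mul]; omega)
  have h4 : U.det = 1 := by
    simp [U, det_fromBlocks_zero₂₁, det_neg, pow_mul, show (-1 : LL) ^ 4 = 1 by norm_num]
  rw [det_mul, h4, mul_one, ← RingHom.map_det] at h3
  refine p1 (eq_zero_of_od (h3.mono ?_))
  simp only [sum_sub_distrib, sum_const, card_univ, Fintype.card_sum, Fintype.card_fin,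
    Fintype.sum_sum_type, Sum.elim_inl, Sum.elim_inr, sum_ite_mem, univ_inter, nsmul_eq_mul]
  have h5 : (I.card : ℤ) ≤ H := by exact_mod_cast hI
  have h6 : (13 * κ * H : ℤ) ≤ n := by exact_mod_cast hn
  have h7 : (1 : ℤ) ≤ H := by exact_mod_cast hH
  push_cast
  nlinarith

end Pool.Agent.Lib.MP_12eca1_ag.MY
end

-- part Pool.Agent.Lib.MP_12eca1_ag.Y.Rec
section

/-! The recursion for the moments, its differential system and its denominators. -/

namespace Pool.Agent.Lib.MP_12eca1_ag.MY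

open Polynomial Finset Pool.Agent.Lib.MP_dda4e9_nt.LB Pool.Agent.Lib.MP_12eca1_ag.MZ

/-- convolution with the powers of `a` -/
noncomputable def cv (a : ℂ) (m : ℕ → ℂ) : ℕ → ℂ
  | 0 => m 0
  | j + 1 => a * cv a m j + m (j + 1)

/-- the contribution of the first letter -/
noncomputable def lm (v : ℕ) (a : ℂ) (m : ℕ → ℂ) (j : ℕ) : ℂ := if v = 0 then 0 else cv a m j

/-- the recursion for the moments -/
def RecS (s : ℕ) (α β : ℕ → ℂ) (c : Bool → ℕ → ℕ → ℂ) (m : ℕ → ℕ → ℕ → ℂ) : Prop :=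
  ∀ j v w : ℕ, ((j : ℂ) + 1) * m j v w = α v ^ (j + 1) * c true v w + β w ^ (j + 1) * c false v w -
    lm v (α v) (fun i => m i (v / s) w) j - lm w (β w) (fun i => m i v (w / s)) j

/-- the letters lie in `S` and brothers carry distinct letters -/
def Let (S : Finset ℂ) (s : ℕ) (α : ℕ → ℂ) : Prop :=
  (∀ v, α v ∈ S) ∧ ∀ v ≠ 0, ∀ v' ≠ 0, v' / s = v / s → α v' = α v → v' = v

/-- the partial products -/
noncomputable def PS (S : Finset ℂ) (a : ℂ) : ℂ[X] := ∏ b ∈ S.erase a, (X - C b)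

variable {S : Finset ℂ} {s : ℕ} {α β : ℕ → ℂ} {c : Bool → ℕ → ℕ → ℂ} {m : ℕ → ℕ → ℕ → ℂ}

theorem PS_mul {a : ℂ} (h0 : 0 ∈ S) (ha : a ∈ S) : X * PS S 0 = (X - C a) * PS S a := by
  rw [PS, PS, mul_prod_erase S (fun b => X - C b) ha, ← mul_prod_erase S (fun b => X - C b) h0]
  simp

theorem PS_eval (S : Finset ℂ) (a : ℂ) : (PS S a).eval a ≠ 0 := by
  rw [PS, eval_prod]
  exact prod_ne_zero_iff.2 fun b hb => by simpa [sub_eq_zero] using (ne_of_mem_erase hb).symm

theorem PS_deg (S : Finset ℂ) (a : ℂ) : (PS S a).natDegree ≤ S.card := by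
  rw [PS, natDegree_finsetProd_X_sub_C_eq_card _ fun b : ℂ => b]
  exact card_erase_le

theorem Let.tr (h : Let S s α) (h0 : 0 ∈ S) :
    Tr s (X * PS S 0) fun v => if v = 0 then 0 else PS S (α v) := by
  refine ⟨if_pos rfl, fun v hv => ⟨α v, by simp [hv, PS_mul h0 (h.1 v)],
    by simpa [hv] using PS_eval S _, fun v' h1 h2 => ?_⟩⟩
  by_cases hv' : v' = 0
  · simp [hv']
  simp only [if_neg hv', PS, eval_prod]
  exact prod_eq_zero (mem_erase.2 ⟨fun e => h2 (h.2 v hv v' hv' h1 e.symm), h.1 v⟩) (by simp)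

theorem ser_lm (h0 : 0 ∈ S) {a : ℂ} (ha : a ∈ S) (v : ℕ) (m : ℕ → ℂ) :
    ph (PS S 0) * ser (lm v a m) = ph (if v = 0 then 0 else PS S a) * ser m := by
  unfold lm
  split_ifs
  · simp [ser_zero]
  have e1 : ph (X - C a) * ser (cv a m) = ph X * ser m := by
    rw [map_sub, sub_mul, ser_shift, ser_shift, ← ser_mul, add_sub_assoc, ← ser_sub]
    simp [cv]
  have e2 : ph (X - C a) ≠ 0 := fun e =>
    X_sub_C_ne_zero a (eq_zero_of_od (e ▸ od_zero 1))
  have e3 := congrArg ph (PS_mul h0 ha)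
  simp only [map_mul] at e3
  refine mul_left_cancel₀ e2 ?_
  linear_combination ph (PS S 0) * e1 + ser m * e3

theorem geo {a : ℂ} (ha : a ∈ S) : ∃ q, ph (PS S 0) * ser (fun j => a ^ (j + 1)) =
    ph q ∧ (a ≠ 0 → q.eval 0 ≠ 0) ∧ (a = 0 → q = 0) := by
  by_cases h : a = 0
  · exact ⟨0, by simp [h, ser_zero], fun e => absurd h e, fun _ => rfl⟩
  have e : PS S 0 = (X - C a) * PS (S.erase 0) a :=
    (mul_prod_erase _ (fun b => X - C b) (mem_erase.2 ⟨h, ha⟩)).symm
  refine ⟨PS (S.erase 0) a * C a, by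
    rw [e, mul_comm (X - C a), map_mul, map_mul, mul_assoc, ser_geo], fun _ => ?_, fun e => absurd e h⟩
  have := PS_eval S 0
  rw [e] at this
  simp only [eval_mul, eval_C, ne_eq, mul_eq_zero, not_or] at this ⊢
  exact ⟨this.2, h⟩

theorem zero_est4 (hs : 2 ≤ s) (h0 : 0 ∈ S) (hα : Let S s α) (hβ : Let S s β) (a0 : α 0 = 1)
    (b0 : β 0 = 0) (h : RecS s α β c m) (hx : c true 0 0 ≠ 0) {H n : ℕ}
    (hn : 13 * S.card * H ≤ n) :
    LinearIndependent ℂ fun (p : Fin H × Fin (n + 1)) (q : Fin (4 * H) × Fin (n + 1)) =>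
      df (fun i => m i p.1 q.1) p.2 q.2 := by
  choose! g g1 g2 g3 using fun a (ha : a ∈ S) => geo ha
  refine zero_est3 (τ := fun v w => -(C (c true v w) * g (α v) + C (c false v w) * g (β w)))
    ⟨hs, PS_eval S 0, hα.tr h0, hβ.tr h0, ?_, PS_deg S 0, fun v => ?_, fun v => ?_, ?_,
      fun v w => ?_⟩ hn
  · rw [show (X : ℂ[X]) = X - C 0 by simp, PS, mul_prod_erase S (fun b => X - C b) h0,
      natDegree_finsetProd_X_sub_C_eq_card _ fun b : ℂ => b]
  · split_ifs
    exacts [by simp, PS_deg S _]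
  · split_ifs
    exacts [by simp, PS_deg S _]
  · simpa [g3 _ (hβ.1 0) b0, hx] using g2 _ (hα.1 0) (by simp [a0])
  have e : (fun j : ℕ => -((j : ℂ) + 1) * m j v w) = fun j =>
      (lm v (α v) (fun i => m i (v / s) w) j + lm w (β w) (fun i => m i v (w / s)) j) -
        (c true v w * α v ^ (j + 1) + c false v w * β w ^ (j + 1)) :=
    funext fun j => by linear_combination -h j v w
  rw [eu_ser, e, ser_sub, ser_add, ser_add, mul_sub, mul_add, ser_lm h0 (hα.1 v),
    ser_lm h0 (hβ.1 w), ser_mul, ser_mul]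
  simp only [map_neg, map_add, map_mul]
  linear_combination -ph (C (c true v w)) * g1 _ (hα.1 v) - ph (C (c false v w)) * g1 _ (hβ.1 w)

theorem RecS.map (h : RecS s α β c m) (Λ : ℂ →ₗ[ℚ] ℂ) (hα : ∀ v z, Λ (α v * z) = α v * Λ z)
    (hβ : ∀ v z, Λ (β v * z) = β v * Λ z) :
    RecS s α β (fun b v w => Λ (c b v w)) fun j v w => Λ (m j v w) := fun j v w => by
  have h1 : ∀ a, (∀ z, Λ (a * z) = a * Λ z) → ∀ (k : ℕ) z, Λ (a ^ k * z) = a ^ k * Λ z :=
    fun a ha k z => by
      induction k with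
      | zero => simp
      | succ k ih => rw [pow_succ', mul_assoc, ha, ih, mul_assoc]
  have h2 : ∀ u a m', (∀ z, Λ (a * z) = a * Λ z) →
      Λ (lm u a m' j) = lm u a (fun i => Λ (m' i)) j := fun u a m' ha => by
    unfold lm
    split_ifs
    · simp
    induction j with
    | zero => rfl
    | succ j ih => rw [cv, cv, map_add, ha, ih]
  have h3 := map_nsmul Λ (j + 1) (m j v w)
  simp only [nsmul_eq_mul, Nat.cast_add, Nat.cast_one] at h3
  rw [← h3, h j v w, map_sub, map_sub, map_add, h1 _ (hα v), h1 _ (hβ w), h2 _ _ _ (hα v),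
    h2 _ _ _ (hβ w)]

/-- the length of a word -/
def dp (s v : ℕ) : ℕ := (Nat.digits s v).length

theorem dp_div (hs : 2 ≤ s) {v : ℕ} (h : v ≠ 0) : dp s v = dp s (v / s) + 1 := by
  rw [dp, Nat.digits_def' hs (Nat.pos_of_ne_zero h), List.length_cons, dp]

section height

variable {ι : Type*} [Fintype ι] {θ : ι → ℂ} {D C : ℕ}

/-- multiplication by `D x` multiplies the heights by at most `C` -/
def Mu (θ : ι → ℂ) (D C : ℕ) (x : ℂ) : Prop := ∀ Q z, Hg θ Q z → Hg θ (C * Q) (D * x * z)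

theorem hg_nonneg {Q : ℝ} {z : ℂ} (h : Hg θ Q z) : 0 ≤ Q := by
  obtain ⟨l, h1, -⟩ := h
  exact (sum_nonneg fun _ _ => abs_nonneg _).trans h1

theorem Mu.pow {x z : ℂ} {Q : ℝ} (h : Mu θ D C x) (hz : Hg θ Q z) (j : ℕ) :
    Hg θ (C ^ j * Q) (D ^ j * (x ^ j * z)) := by
  induction j with
  | zero => simpa using hz
  | succ j ih => exact (h _ _ ih).mono (le_of_eq (by ring)) (by ring)

theorem scale (h1 : Mu θ D C 1) {j L : ℕ} (hj : j ≤ L) {Q : ℝ} (hQ : 0 ≤ Q) {z : ℂ}
    (h : Hg θ ((2 * C) ^ j * Q) (D ^ j * z)) : Hg θ ((2 * C) ^ L * Q) (D ^ L * z) := by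
  obtain ⟨k, rfl⟩ := Nat.exists_eq_add_of_le hj
  refine (h1.pow h k).mono ?_ (by ring)
  rw [add_comm, pow_add, mul_assoc ((2 * C : ℝ) ^ k)]
  gcongr
  linarith [(C.cast_nonneg : (0 : ℝ) ≤ C)]

theorem cv_hg (h1 : Mu θ D C 1) {a E : ℂ} (ha : Mu θ D C a) {L : ℕ} {Q : ℝ} {m : ℕ → ℂ}
    (h : ∀ i < L, Hg θ Q (E * m i)) : ∀ j < L, Hg θ ((2 * C) ^ j * Q) (D ^ j * (E * cv a m j)) := by
  intro j
  induction j with
  | zero => exact fun hj => by simpa [cv] using h 0 hj
  | succ j ih =>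
    intro hj
    have hQ := hg_nonneg (h _ hj)
    refine ((ha _ _ (ih (by omega))).add (h1.pow (h _ hj) (j + 1))).mono ?_ (by rw [cv]; ring)
    have : (C : ℝ) ^ j ≤ (2 * C) ^ j := by
      gcongr
      linarith [(C.cast_nonneg : (0 : ℝ) ≤ C)]
    rw [pow_succ, pow_succ]
    nlinarith [mul_le_mul_of_nonneg_right this (mul_nonneg (C.cast_nonneg : (0 : ℝ) ≤ C) hQ)]

theorem integ3 (hs : 2 ≤ s) (h : RecS s α β c m) (hD : D ≤ C) (h1 : Mu θ D C 1)
    (hα : ∀ v, Mu θ D C (α v)) (hβ : ∀ v, Mu θ D C (β v)) {H N L : ℕ}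
    (hx : ∀ b, ∀ v < H, ∀ w < N, Hg θ 1 (c b v w)) (W : ℕ) :
    ∀ v < H, ∀ w < N, dp s v + dp s w < W → ∀ j < L,
      Hg θ ((Nat.lcmUpto L * (4 * (2 * C) ^ L)) ^ W) ((Nat.lcmUpto L * D ^ L) ^ W * m j v w) := by
  induction W with
  | zero => intro v _ w _ h; omega
  | succ W ih =>
    intro v hv w hw hW j hj
    obtain ⟨k, hk⟩ := dvd_lcm' j.succ_pos hj
    have hk1 : k ≤ Nat.lcmUpto L := Nat.le_of_dvd (Nat.lcmUpto_pos L) (Dvd.intro_left _ hk.symm)
    set d := Nat.lcmUpto L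
    set K : ℝ := (d * (4 * (2 * C) ^ L)) ^ W with hK
    set G : ℂ := (d * D ^ L) ^ W with hG
    have h0 : 0 ≤ K := by positivity
    have hC' : (C : ℝ) ≤ 2 * C := by linarith [(C.cast_nonneg : (0 : ℝ) ≤ C)]
    have h2 : ∀ a z, Mu θ D C a → Hg θ 1 z →
        Hg θ ((2 * C) ^ L * K) (D ^ L * (G * (a ^ (j + 1) * z))) := fun a z ha hz => by
      refine scale (j := j + 1) h1 hj h0 ((ha.pow (hz.nmul ((d * D ^ L) ^ W)) (j + 1)).mono ?_
        (by rw [hG]; push_cast; ring))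
      have : (D : ℝ) ≤ 2 * C := le_trans (by exact_mod_cast hD) hC'
      have : (D : ℝ) ^ L ≤ 4 * (2 * C) ^ L :=
        le_trans (by gcongr) (le_mul_of_one_le_left (by positivity) (by norm_num))
      push_cast
      rw [mul_one, hK]
      gcongr
    have h3 : ∀ u a (m' : ℕ → ℂ), Mu θ D C a → (u ≠ 0 → ∀ i < L, Hg θ K (G * m' i)) →
        Hg θ ((2 * C) ^ L * K) (D ^ L * (G * lm u a m' j)) := fun u a m' ha hm => by
      unfold lm
      split_ifs with hu
      · simpa using hg_zero (by positivity)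
      · exact scale h1 hj.le h0 (cv_hg h1 ha (hm hu) j hj)
    refine (((((h2 _ _ (hα v) (hx true v hv w hw)).add (h2 _ _ (hβ w) (hx false v hv w hw))).sub
      (h3 v _ (fun i => m i (v / s) w) (hα v) fun h0 i hi => ih _ ((Nat.div_le_self _ _).trans_lt hv)
        _ hw (by have := dp_div hs h0; omega) i hi)).sub
      (h3 w _ (fun i => m i v (w / s)) (hβ w) fun h0 i hi => ih _ hv _
        ((Nat.div_le_self _ _).trans_lt hw) (by have := dp_div hs h0; omega) i hi)).nmul k).mono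
      ?_ ?_
    · calc _ = k * (4 * (2 * C) ^ L * K) := by ring
        _ ≤ d * (4 * (2 * C) ^ L * K) := by gcongr
        _ = _ := by rw [hK]; ring
    · have : (d : ℂ) = (j + 1) * k := by exact_mod_cast hk
      rw [pow_succ, ← hG]
      linear_combination G * D ^ L * k * h j v w + G * D ^ L * m j v w * this

end height

end Pool.Agent.Lib.MP_12eca1_ag.MY
end

-- part Pool.Agent.Lib.MP_12eca1_ag.Y.Ana
section

/-! The iterated integrals: derivatives, bounds, limits and holomorphic continuation. -/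

namespace Pool.Agent.Lib.MP_12eca1_ag.MY

open Set Filter Topology MeasureTheory Pool.Agent.Lib.MP_12eca1_ag.MZ

/-- words with letters outside `(0, 1)` and last letter different from `0` -/
def Gd : List ℂ → Prop
  | [] => True
  | a :: u => (∀ t ∈ II, (t : ℂ) ≠ a) ∧ (a = 0 → u ≠ []) ∧ Gd u

theorem gd_iff (u : List ℂ) : Gd u ↔ (∀ a ∈ u, ∀ t ∈ II, (t : ℂ) ≠ a) ∧ u.getLast? ≠ some 0 := by
  induction u with
  | nil => simp [Gd]
  | cons a u ih =>
    rw [Gd, ih, List.forall_mem_cons]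
    cases u with
    | nil => simp [eq_comm]
    | cons b u => simp [and_assoc]

theorem sep {a : ℂ} (h : ∀ t ∈ II, (t : ℂ) ≠ a) (h0 : a ≠ 0) : ∃ k : ℝ, 0 < k ∧ ∀ t ∈ II,
    k * (1 - t) ≤ ‖t - a‖ ∧ (a ≠ 1 → k ≤ ‖t - a‖) := by
  by_cases h1 : a = 1
  · refine ⟨1, one_pos, fun t ht => ⟨le_of_eq ?_, fun e => absurd h1 e⟩⟩
    rw [h1, norm_sub_rev, one_mul, ← Real.norm_of_nonneg (II_sub ht).1.le, ← Complex.norm_real]
    simp
  obtain ⟨x, hx, h2⟩ := isCompact_Icc.exists_isMinOn (nonempty_Icc.2 zero_le_one)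
    (f := fun t : ℝ => ‖t - a‖) (by fun_prop)
  have h3 : 0 < ‖x - a‖ := norm_pos_iff.2 (sub_ne_zero.2 (by
    rcases hx.1.eq_or_lt with rfl | h4
    · simpa using h0.symm
    rcases hx.2.eq_or_lt with rfl | h5
    · simpa using Ne.symm h1
    exact h x ⟨h4, h5⟩))
  exact ⟨_, h3, fun t ht => ⟨(mul_le_of_le_one_right h3.le (II_sub ht).2.le).trans
    (h2 (Ioo_subset_Icc_self ht)), fun _ => h2 (Ioo_subset_Icc_self ht)⟩⟩

theorem sq_facts {t : ℝ} (ht : t ∈ II) :
    0 < √(1 - t) ∧ √(1 - t) ≤ 1 ∧ √(1 - t) * √(1 - t) = 1 - t :=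
  ⟨Real.sqrt_pos.2 (II_sub ht).1, Real.sqrt_le_one.2 (II_sub ht).2.le,
    Real.mul_self_sqrt (II_sub ht).1.le⟩

theorem bnd {G f : ℝ → ℂ} {C : ℝ} (hC : 0 ≤ C) (hG : ∀ t ∈ II, HasDerivAt G (f t) t)
    (h0 : Tendsto G (𝓝[>] 0) (𝓝 0)) (hf : ∀ t ∈ II, ‖f t‖ ≤ C / √(1 - t) / (1 - t)) {t : ℝ}
    (ht : t ∈ II) : ‖G t‖ ≤ 2 * C * t / √(1 - t) := by
  have h3 := fence hG (B := fun t => 2 * C * (√(1 - t))⁻¹) (fun t ht => ?_) hf h0
    ((sq_lim.inv₀ one_ne_zero).const_mul _) ht
  · obtain ⟨p1, p2, p3⟩ := sq_facts ht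
    rw [sub_zero] at h3
    refine h3.trans ?_
    rw [le_div_iff₀ p1, sub_mul, mul_assoc, inv_mul_cancel₀ p1.ne', inv_one]
    nlinarith [mul_nonneg hC (mul_nonneg p1.le (sub_nonneg.2 p2))]
  · obtain ⟨p1, p2, p3⟩ := sq_facts ht
    refine (((sq_der ht).inv p1.ne').const_mul (2 * C)).congr_deriv ?_
    rw [sq, p3]
    field_simp

theorem intg {f : ℝ → ℂ} {g : ℝ → ℝ} {t : ℝ} (h0 : 0 ≤ t) (h1 : t ≤ 1) (hf : ContinuousOn f II)
    (hg : IntervalIntegrable g volume 0 t) (h : ∀ s ∈ Ioo 0 t, ‖f s‖ ≤ g s) :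
    IntervalIntegrable f volume 0 t := by
  rw [intervalIntegrable_iff_integrableOn_Ioo_of_le h0] at hg ⊢
  exact hg.mono' ((hf.mono (Ioo_subset_Ioo_right h1)).aestronglyMeasurable measurableSet_Ioo)
    (ae_restrict_of_forall_mem measurableSet_Ioo h)

/-- the growth conditions -/
def Bd (u : List ℂ) : Prop := ContinuousOn (itInt u) II ∧ ∃ C : ℝ, 0 ≤ C ∧ ∀ t ∈ II,
  ‖itInt u t‖ ≤ C / √(1 - t) ∧ (u ≠ [] → ‖itInt u t‖ ≤ C * t / √(1 - t))

theorem Bd.integrand {a : ℂ} {u : List ℂ} (h : Bd u) (hg : Gd (a :: u)) :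
    ContinuousOn (fun t : ℝ => itInt u t / (t - a)) II ∧ ∃ C : ℝ, 0 ≤ C ∧ ∀ t ∈ II,
      ‖itInt u t / (t - a)‖ ≤ C / √(1 - t) / (1 - t) ∧
      (a ≠ 1 → ‖itInt u t / (t - a)‖ ≤ C / √(1 - t)) := by
  refine ⟨h.1.div (by fun_prop) fun t ht => sub_ne_zero.2 (hg.1 t ht), ?_⟩
  obtain ⟨C, hC, h1⟩ := h.2
  by_cases h0 : a = 0
  · refine ⟨C, hC, fun t ht => ?_⟩
    have h2 : ‖itInt u t / (t - a)‖ ≤ C / √(1 - t) := by
      rw [h0, sub_zero, norm_div, Complex.norm_real, Real.norm_of_nonneg ht.1.le, div_le_iff₀ ht.1]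
      exact ((h1 t ht).2 (hg.2.1 h0)).trans_eq (by ring)
    refine ⟨h2.trans ?_, fun _ => h2⟩
    rw [le_div_iff₀ (II_sub ht).1]
    exact mul_le_of_le_one_right (by positivity) (II_sub ht).2.le
  obtain ⟨k, hk, h2⟩ := sep hg.1 h0
  refine ⟨C / k, by positivity, fun t ht => ?_⟩
  have := (II_sub ht).1
  rw [norm_div]
  exact ⟨(div_le_div₀ (by positivity) (h1 t ht).1 (by positivity) (h2 t ht).1).trans_eq (by
      field_simp), fun e => (div_le_div₀ (by positivity) (h1 t ht).1 hk ((h2 t ht).2 e)).trans_eq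
      (by ring)⟩

theorem Bd.der {a : ℂ} {u : List ℂ} (h : Bd u) (hg : Gd (a :: u)) :
    (∀ t ∈ II, HasDerivAt (itInt (a :: u)) (itInt u t / (t - a)) t) ∧
      Tendsto (itInt (a :: u)) (𝓝[>] 0) (𝓝 0) := by
  obtain ⟨h1, C, hC, h2⟩ := h.integrand hg
  have h3 : ∀ t ∈ II, IntervalIntegrable (fun t : ℝ => itInt u t / (t - a)) volume 0 t :=
    fun t ht => intg ht.1.le ht.2.le h1 (g := fun _ => C / √(1 - t) / (1 - t))
      intervalIntegrable_const fun s hs => (h2 s ⟨hs.1, hs.2.trans ht.2⟩).1.trans (by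
        have := (II_sub ht).1
        have := hs.2
        gcongr)
  refine ⟨fun t ht => intervalIntegral.integral_hasDerivAt_right (h3 t ht)
    (h1.stronglyMeasurableAtFilter isOpen_Ioo t ht) (h1.continuousAt (Ioo_mem_nhds ht.1 ht.2)), ?_⟩
  have h4 := (intervalIntegral.continuousOn_primitive_interval' (h3 (1 / 2) (by norm_num))
    left_mem_uIcc 0 left_mem_uIcc).tendsto
  rw [intervalIntegral.integral_same, uIcc_of_le (by norm_num)] at h4
  exact h4.mono_left (nhdsWithin_le_of_mem (Icc_mem_nhdsGT (by norm_num)))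

theorem Gd.bd {u : List ℂ} (h : Gd u) : Bd u := by
  induction u with
  | nil =>
    refine ⟨continuousOn_const, 1, zero_le_one, fun t ht => ⟨?_, fun h => absurd rfl h⟩⟩
    rw [itInt, norm_one, le_div_iff₀ (sq_facts ht).1, one_mul]
    exact (sq_facts ht).2.1
  | cons a u ih =>
    obtain ⟨h1, h2⟩ := (ih h.2.2).der h
    obtain ⟨-, C, hC, h3⟩ := (ih h.2.2).integrand h
    have h4 := fun t ht => bnd hC h1 h2 (fun t ht => (h3 t ht).1) (t := t) ht
    refine ⟨fun t ht => (h1 t ht).continuousAt.continuousWithinAt, 2 * C, by positivity,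
      fun t ht => ⟨(h4 t ht).trans ?_, fun _ => h4 t ht⟩⟩
    exact div_le_div_of_nonneg_right (mul_le_of_le_one_right (by positivity) ht.2.le)
      (sq_facts ht).1.le

theorem Gd.der {a : ℂ} {u : List ℂ} (h : Gd (a :: u)) {t : ℝ} (ht : t ∈ II) :
    HasDerivAt (itInt (a :: u)) (itInt u t / (t - a)) t := (h.2.2.bd.der h).1 t ht

theorem Gd.lim0 {a : ℂ} {u : List ℂ} (h : Gd (a :: u)) :
    Tendsto (itInt (a :: u)) (𝓝[>] 0) (𝓝 0) := (h.2.2.bd.der h).2

theorem Gd.lim1 {a : ℂ} {u : List ℂ} (h : Gd (a :: u)) (ha : a ≠ 1) :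
    Tendsto (itInt (a :: u)) (𝓝[<] 1) (𝓝 (itInt (a :: u) 1)) := by
  obtain ⟨h1, C, hC, h2⟩ := h.2.2.bd.integrand h
  have h3 := ((intervalIntegral.intervalIntegrable_rpow' (a := 1) (b := 0)
    (show (-1 : ℝ) < -(1 / 2) by norm_num)).comp_sub_left 1).const_mul C
  rw [sub_self, sub_zero] at h3
  have h4 := (intervalIntegral.continuousOn_primitive_interval' (intg zero_le_one le_rfl h1 h3
    fun s hs => ((h2 s hs).2 ha).trans_eq (by
      rw [Real.rpow_neg (II_sub hs).1.le, ← Real.sqrt_eq_rpow, div_eq_mul_inv]))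
    left_mem_uIcc 1 right_mem_uIcc).tendsto
  rw [uIcc_of_le zero_le_one] at h4
  exact h4.mono_left (nhdsWithin_le_of_mem (Icc_mem_nhdsLT one_pos))

theorem Gd.pr {a : ℂ} {u : List ℂ} (h : Gd (a :: u)) (ha : a ≠ 1) :
    Pr (fun t => itInt u t / (t - a)) (itInt (a :: u) 1) :=
  ⟨_, 0, fun _ ht => h.der ht, h.lim0, by simpa using h.lim1 ha⟩

theorem uniq {F G f : ℝ → ℂ} (hF : ∀ t ∈ II, HasDerivAt F (f t) t)
    (hG : ∀ t ∈ II, HasDerivAt G (f t) t) (h1 : Tendsto F (𝓝[>] 0) (𝓝 0))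
    (h2 : Tendsto G (𝓝[>] 0) (𝓝 0)) {t : ℝ} (ht : t ∈ II) : F t = G t := by
  have := fence (fun t ht => (hF t ht).sub (hG t ht)) (B := fun _ => 0) (B' := fun _ => 0)
    (fun t _ => hasDerivAt_const t 0) (fun t _ => by simp) (h1.sub h2) tendsto_const_nhds ht
  simpa [sub_eq_zero] using this

/-- a thin rectangle -/
def OO (ρ : ℝ) : Set ℂ :=
  ({c | -ρ < c.re} ∩ {c | c.re < 1}) ∩ ({c | -ρ < c.im} ∩ {c | c.im < ρ})

theorem OO_open (ρ : ℝ) : IsOpen (OO ρ) :=
  ((isOpen_lt continuous_const Complex.continuous_re).inter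
    (isOpen_lt Complex.continuous_re continuous_const)).inter
    ((isOpen_lt continuous_const Complex.continuous_im).inter
      (isOpen_lt Complex.continuous_im continuous_const))

theorem OO_mem {ρ t : ℝ} (h : 0 < ρ) (h0 : 0 ≤ t) (h1 : t < 1) : (t : ℂ) ∈ OO ρ := by
  simp only [OO, mem_inter_iff, mem_ofPred_eq, Complex.ofReal_re, Complex.ofReal_im]
  exact ⟨⟨by linarith, h1⟩, by linarith, h⟩

theorem OO_avoid {a : ℂ} (h : ∀ t ∈ II, (t : ℂ) ≠ a) :
    ∀ᶠ ρ in 𝓝 (0 : ℝ), a ≠ 0 → a ∉ OO ρ := by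
  by_cases h0 : a = 0
  · simp [h0]
  by_cases h1 : a.im = 0
  · rcases lt_trichotomy a.re 0 with h2 | h2 | h2
    · exact (eventually_lt_nhds (neg_pos.2 h2)).mono fun ρ hρ _ h3 => by
        linarith [show -ρ < a.re from h3.1.1]
    · exact absurd (Complex.ext h2 h1) h0
    · exact .of_forall fun ρ _ h3 => h a.re ⟨h2, h3.1.2⟩ (Complex.ext rfl h1.symm)
  · exact (eventually_lt_nhds (abs_pos.2 h1)).mono fun ρ hρ _ h3 =>
      hρ.not_gt (abs_lt.2 ⟨h3.2.1, h3.2.2⟩)

theorem Gd.hol {ρ : ℝ} (hρ : 0 < ρ) {u : List ℂ} (h : Gd u) (hu : ∀ a ∈ u, a ≠ 0 → a ∉ OO ρ) :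
    ∃ g : ℂ → ℂ, DifferentiableOn ℂ g (OO ρ) ∧ (u ≠ [] → g 0 = 0) ∧ ∀ t ∈ II, g t = itInt u t := by
  induction u with
  | nil => exact ⟨fun _ => 1, differentiableOn_const _, fun h => absurd rfl h, fun _ _ => rfl⟩
  | cons a u ih =>
    obtain ⟨g, h1, h2, h3⟩ := ih h.2.2 fun b hb => hu b (List.mem_cons_of_mem _ hb)
    have h0 : (0 : ℂ) ∈ OO ρ := OO_mem hρ le_rfl one_pos
    obtain ⟨f, h4, h5⟩ : ∃ f : ℂ → ℂ, DifferentiableOn ℂ f (OO ρ) ∧
        ∀ t ∈ II, f t = itInt u t / (t - a) := by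
      by_cases ha : a = 0
      · refine ⟨dslope g 0, (Complex.differentiableOn_dslope ((OO_open ρ).mem_nhds h0)).2 h1,
          fun t ht => ?_⟩
        rw [dslope_of_ne _ (ne0 ht), slope_def_field, h2 (h.2.1 ha), h3 t ht, ha, sub_zero]
      · exact ⟨fun z => g z / (z - a), h1.div (by fun_prop) fun z hz e =>
          hu a List.mem_cons_self ha (sub_eq_zero.1 e ▸ hz), fun t ht => by simp only [h3 t ht]⟩
    obtain ⟨G, h6⟩ := Convex.exists_forall_hasDerivWithinAt (((convex_halfSpace_re_gt _).inter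
      (convex_halfSpace_re_lt _)).inter ((convex_halfSpace_im_gt _).inter
        (convex_halfSpace_im_lt _))) h4
    have h7 := fun z hz => ((h6 z hz).hasDerivAt ((OO_open ρ).mem_nhds hz)).sub_const (G 0)
    refine ⟨fun z => G z - G 0, fun z hz => (h7 z hz).differentiableAt.differentiableWithinAt,
      fun _ => sub_self _, fun t ht => uniq (F := fun t : ℝ => G t - G 0)
        (fun t ht => h5 t ht ▸ (h7 t (OO_mem hρ ht.1.le ht.2)).comp_ofReal)
        (fun t ht => h.der ht) ?_ h.lim0 ht⟩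
    have h8 := (h7 0 h0).continuousAt.tendsto.comp
      (show Tendsto (fun t : ℝ => (t : ℂ)) (𝓝 0) (𝓝 0) by
        simpa using Complex.continuous_ofReal.tendsto 0)
    rw [sub_self] at h8
    exact h8.mono_left nhdsWithin_le_nhds

end Pool.Agent.Lib.MP_12eca1_ag.MY
end
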