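import Pool.Agent.Lib.MP_12eca1_ag.Y.Ana

-- part Pool.Agent.Lib.MP_12eca1_ag.Y.Mom
section

/-! The moments of products of iterated integrals are linear forms in periods. -/

namespace Pool.Agent.Lib.MP_12eca1_ag.MY

open Set Filter Topology Module Pool.Agent.Lib.MP_12eca1_ag.MZ

variable (K : IntermediateField ℚ ℂ) (S : Finset ℂ)

/-- the span of the periods of weight `j` -/
noncomputable def ZS (j : ℕ) : Submodule K ℂ :=
  Submodule.span K {x | ∃ u : List ℂ, u.length = j ∧ (∀ a ∈ u, a ∈ S) ∧ u.head? ≠ some 1 ∧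
    u.getLast? ≠ some 0 ∧ x = itInt u 1}

/-- the reflected word -/
def fl (v : List ℂ) : List ℂ := v.map (1 - ·)

/-- the products -/
noncomputable def PQ (v w : List ℂ) (t : ℝ) : ℂ := itInt (fl v) (1 - t) * itInt w t

/-- the derivative of the first factor -/
noncomputable def dA (v w : List ℂ) (t : ℝ) : ℂ :=
  if v = [] then 0 else PQ v.tail w t / (t - v.headD 1)

/-- the derivative of the second factor -/
noncomputable def dJ (v w : List ℂ) (t : ℝ) : ℂ :=
  if w = [] then 0 else PQ v w.tail t / (t - w.headD 0)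

variable {K S}

theorem PQ_der {v w : List ℂ} (hv : Gd (fl v)) (hw : Gd w) {t : ℝ} (ht : t ∈ II) :
    HasDerivAt (PQ v w) (dA v w t + dJ v w t) t := by
  have h1 : HasDerivAt (fun t => itInt (fl v) (1 - t))
      (if v = [] then 0 else itInt (fl v.tail) (1 - t) / (t - v.headD 1)) t := by
    cases v with
    | nil => exact hasDerivAt_const t 1
    | cons a v =>
      refine ((Gd.der (a := 1 - a) (u := fl v) hv (II_sub ht)).scomp t
        ((hasDerivAt_id t).const_sub 1)).congr_deriv ?_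
      simp only [neg_smul, one_smul, List.tail_cons, List.headD_cons, reduceCtorEq, if_false]
      rw [← div_neg]
      push_cast
      ring
  have h2 : HasDerivAt (itInt w) (if w = [] then 0 else itInt w.tail t / (t - w.headD 0)) t := by
    cases w with
    | nil => exact hasDerivAt_const t 1
    | cons a w => exact hw.der ht
  refine (h1.mul h2).congr_deriv ?_
  unfold dA dJ PQ
  split_ifs <;> ring

theorem PQ_bound {v w : List ℂ} (hv : Gd (fl v)) (hw : Gd w) : ∃ K : ℝ, 0 ≤ K ∧ ∀ t ∈ II,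
    ‖PQ v w t‖ ≤ K / (√t * √(1 - t)) ∧ (w ≠ [] → ‖PQ v w t‖ ≤ K * t / (√t * √(1 - t))) ∧
      (v ≠ [] → ‖PQ v w t‖ ≤ K * (1 - t) / (√t * √(1 - t))) := by
  obtain ⟨C, hC, h1⟩ := hv.bd.2
  obtain ⟨C', hC', h2⟩ := hw.bd.2
  refine ⟨C * C', by positivity, fun t ht => ?_⟩
  have h3 := h1 _ (II_sub ht)
  have h4 := h2 _ ht
  have h5 := (II_sub ht).1
  rw [sub_sub_cancel] at h3
  rw [PQ, norm_mul]
  refine ⟨(mul_le_mul h3.1 h4.1 (norm_nonneg _) (by positivity)).trans_eq (by ring),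
    fun h => (mul_le_mul h3.1 (h4.2 h) (norm_nonneg _) (by positivity)).trans_eq (by ring),
    fun h => (mul_le_mul (h3.2 (by simpa [fl] using h)) h4.1 (norm_nonneg _)
      (by positivity)).trans_eq (by ring)⟩

theorem Gd.mem {a : ℂ} {u : List ℂ} (h : Gd (a :: u)) (ha : a ≠ 1) (hS : ∀ b ∈ a :: u, b ∈ S) :
    itInt (a :: u) 1 ∈ ZS K S (u.length + 1) :=
  Submodule.subset_span ⟨a :: u, rfl, hS, by simpa using ha, ((gd_iff _).1 h).2, rfl⟩

theorem word (hS : ∀ a ∈ S, ∀ t ∈ II, (t : ℂ) ≠ a) (v : List ℂ) : ∀ x w, Gd (fl v) → Gd (x :: w) →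
    (∀ a ∈ v, a ∈ S) → (∀ a ∈ x :: w, a ∈ S) → (v = [] → x ≠ 1) →
    ∃ y ∈ ZS K S (v.length + w.length + 1), Pr (fun t => PQ v w t / (t - x)) y := by
  induction v with
  | nil =>
    intro x w _ h1 _ h2 h3
    exact ⟨_, by simpa using h1.mem (h3 rfl) h2,
      (h1.pr (h3 rfl)).congr (fun t _ => by simp [PQ, fl, itInt]) rfl⟩
  | cons a v ih =>
    intro x w h0 h1 h2 h3 _
    have ha := h2 a List.mem_cons_self
    obtain ⟨y, h4, h5⟩ := ih a (x :: w) h0.2.2 ⟨hS a ha, fun _ => List.cons_ne_nil _ _, h1⟩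
      (fun b hb => h2 b (List.mem_cons_of_mem _ hb)) (List.forall_mem_cons.2 ⟨ha, h3⟩)
      fun e e' => h0.2.1 (by simp [e']) (by simp [e])
    obtain ⟨C, -, h6⟩ := PQ_bound h0 h1
    have h7 : Pr _ 0 := ⟨PQ (a :: v) (x :: w), 0, fun t ht => PQ_der h0 h1 ht,
      lim0 fun t ht => (h6 t ht).2.1 (List.cons_ne_nil _ _),
      by simpa using lim1 fun t ht => (h6 t ht).2.2 (List.cons_ne_nil _ _)⟩
    refine ⟨-y, neg_mem (by convert h4 using 2; simp only [List.length_cons]; omega),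
      (h7.sub h5).congr (fun t _ => by simp [dA, dJ]) (by ring)⟩

theorem lm_pr {a : ℂ} (k j : ℕ) (ha : k ≠ 0 → ∀ t ∈ II, (t : ℂ) ≠ a) {Q : ℝ → ℂ} {m : ℕ → ℂ}
    (h : k ≠ 0 → ∀ i, Pr (fun t => t ^ i * Q t) (m i)) :
    Pr (fun t => (t ^ (j + 1) - a ^ (j + 1)) * if k = 0 then 0 else Q t / (t - a)) (lm k a m j) := by
  unfold lm
  split_ifs with h0
  · simpa using pr_zero
  induction j with
  | zero =>
    refine (h h0 0).congr (fun t ht => ?_) rfl
    have := sub_ne_zero.2 (ha h0 t ht)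
    field_simp
    ring
  | succ j ih =>
    refine ((ih.cmul a).add (h h0 (j + 1))).congr (fun t ht => ?_) rfl
    have := sub_ne_zero.2 (ha h0 t ht)
    field_simp
    ring

theorem step (hS : ∀ a ∈ S, ∀ t ∈ II, (t : ℂ) ≠ a) {v w : List ℂ} (hv : Gd (fl v)) (hw : Gd w)
    (hvS : ∀ a ∈ v, a ∈ S) (hwS : ∀ a ∈ w, a ∈ S) : ∃ c : Bool → ℂ,
    (v = [] ∧ w = [] → c true = 1) ∧ (∀ b, c b ∈ ZS K S (v.length + w.length)) ∧
      ∀ (j : ℕ) (m1 m2 : ℕ → ℂ), (v ≠ [] → ∀ i, Pr (fun t => t ^ i * PQ v.tail w t) (m1 i)) →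
      (w ≠ [] → ∀ i, Pr (fun t => t ^ i * PQ v w.tail t) (m2 i)) →
      Pr (fun t => (j + 1) * (t ^ j * PQ v w t)) (v.headD 1 ^ (j + 1) * c true +
        w.headD 0 ^ (j + 1) * c false - lm v.length (v.headD 1) m1 j -
          lm w.length (w.headD 0) m2 j) := by
  set e : ℂ := if v = [] then 1 else 0 with he
  obtain ⟨y1, p1, p2, p3⟩ : ∃ y ∈ ZS K S (v.length + w.length), (v = [] → y = 0) ∧ ∀ j : ℕ,
      Pr (fun t => (v.headD 1 ^ (j + 1) - e) * dA v w t) (v.headD 1 ^ (j + 1) * y) := by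
    cases v with
    | nil => exact ⟨0, zero_mem _, fun _ => rfl, fun j => by simpa [dA] using pr_zero⟩
    | cons a v =>
      by_cases ha : a = 0
      · exact ⟨0, zero_mem _, fun _ => rfl, fun j => by simpa [ha, he] using pr_zero⟩
      have h0 := hvS a List.mem_cons_self
      obtain ⟨y, h1, h2⟩ := word (K := K) hS v a w hv.2.2 ⟨hS a h0, fun e => absurd e ha, hw⟩
        (fun b hb => hvS b (List.mem_cons_of_mem _ hb)) (List.forall_mem_cons.2 ⟨h0, hwS⟩)
        fun e e' => hv.2.1 (by simp [e']) (by simp [e])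
      exact ⟨y, by simpa [add_right_comm] using h1, fun h => absurd h (List.cons_ne_nil _ _),
        fun j => (h2.cmul _).congr (fun t _ => by simp [he, dA]) rfl⟩
  obtain ⟨y2, q1, q2, q3⟩ : ∃ y ∈ ZS K S (v.length + w.length), (w = [] → y = 0) ∧ ∀ j : ℕ,
      Pr (fun t => (w.headD 0 ^ (j + 1) - e) * dJ v w t) ((w.headD 0 ^ (j + 1) - e) * y) := by
    cases w with
    | nil => exact ⟨0, zero_mem _, fun _ => rfl, fun j => by simpa [dJ] using pr_zero⟩
    | cons b w =>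
      by_cases h : v = [] → b ≠ 1
      · obtain ⟨y, h1, h2⟩ := word (K := K) hS v b w hv hw hvS hwS h
        exact ⟨y, h1, fun h => absurd h (List.cons_ne_nil _ _),
          fun j => (h2.cmul _).congr (fun t _ => by simp [dJ]) rfl⟩
      · push Not at h
        exact ⟨0, zero_mem _, fun _ => rfl, fun j => by simpa [he, h.1, h.2] using pr_zero⟩
  refine ⟨fun b => if b then (if v = [] ∧ w = [] then 1 else 0) - y1 + e * y2 else -y2,
    fun h => by simp [h, p2 h.1, q2 h.2], fun b => ?_, fun j m1 m2 h1 h2 => ?_⟩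
  · cases b
    · exact neg_mem q1
    refine add_mem (sub_mem ?_ p1) (by rw [he]; split_ifs <;> simp [q1])
    split_ifs with h
    · exact Submodule.subset_span ⟨[], by simp [h.1, h.2], by simp, by simp, by simp, rfl⟩
    · exact zero_mem _
  obtain ⟨C, hK, h3⟩ := PQ_bound hv hw
  have hn : ∀ t ∈ II, ‖(t : ℂ) ^ (j + 1)‖ ≤ t := fun t ht => by
    rw [norm_pow, Complex.norm_real, Real.norm_of_nonneg ht.1.le, pow_succ]
    exact mul_le_of_le_one_left ht.1.le (pow_le_one₀ ht.1.le ht.2.le)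
  have h4 : Pr _ (if v = [] ∧ w = [] then 1 else 0) :=
    ⟨fun t => ((t : ℂ) ^ (j + 1) - e) * PQ v w t, -(if v = [] ∧ w = [] then 1 else 0),
      fun t ht => (((hasDerivAt_pow (j + 1) (t : ℂ)).comp_ofReal).sub_const e).mul
        (PQ_der hv hw ht), by
      have a1 := lim0 (F := fun t => (t : ℂ) ^ (j + 1) * PQ v w t) (K := C) fun t ht => by
        rw [norm_mul]
        exact (mul_le_mul (hn t ht) (h3 t ht).1 (norm_nonneg _) ht.1.le).trans_eq (by ring)
      have a2 : Tendsto (fun t => e * PQ v w t) (𝓝[>] 0)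
          (𝓝 (if v = [] ∧ w = [] then 1 else 0)) := by
        by_cases hw : w = []
        · by_cases hv : v = []
          · simp [he, hv, hw, PQ, fl, itInt]
          · simp [he, hv]
        · simpa [hw] using (lim0 fun t ht => (h3 t ht).2.1 hw).const_mul e
      simpa [sub_mul] using a1.sub a2, by
      rw [neg_add_cancel]
      by_cases hv : v = []
      · refine lim1 (K := (j + 1) * C) fun t ht => ?_
        have a1 : ‖(t : ℂ) ^ (j + 1) - e‖ ≤ (j + 1) * (1 - t) := by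
          rw [he, if_pos hv, norm_sub_rev, ← mul_neg_geom_sum, norm_mul, mul_comm]
          refine mul_le_mul ((norm_sum_le _ _).trans ((Finset.sum_le_card_nsmul _ _ 1
            fun i _ => ?_).trans (by simp))) (le_of_eq ?_) (norm_nonneg _) (by positivity)
          · rw [norm_pow, Complex.norm_real, Real.norm_of_nonneg ht.1.le]
            exact pow_le_one₀ ht.1.le ht.2.le
          · rw [← Real.norm_of_nonneg (II_sub ht).1.le, ← Complex.norm_real]
            simp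
        have := (II_sub ht).1
        rw [norm_mul]
        exact (mul_le_mul a1 (h3 t ht).1 (norm_nonneg _) (by positivity)).trans_eq (by ring)
      · refine lim1 (K := C) fun t ht => ?_
        rw [he, if_neg hv, sub_zero, norm_mul]
        exact (mul_le_of_le_one_left (norm_nonneg _) ((hn t ht).trans ht.2.le)).trans
          ((h3 t ht).2.2 hv)⟩
  have h5 := lm_pr (a := v.headD 1) v.length j (fun h => hS _ (hvS _ (by
    cases v <;> simp at h ⊢))) fun h => h1 (by simpa using h)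
  have h6 := lm_pr (a := w.headD 0) w.length j (fun h => hS _ (hwS _ (by
    cases w <;> simp at h ⊢))) fun h => h2 (by simpa using h)
  refine ((((h4.sub h5).sub h6).sub (p3 j)).sub (q3 j)).congr (fun t _ => ?_) ?_
  · simp only [Nat.add_sub_cancel, List.length_eq_zero_iff, dA, dJ]
    push_cast
    ring
  · by_cases hv : v = []
    · simp [he, hv]
      ring
    · simp [he, hv]
      ring

/-- the word with number `v` -/
def wd (s : ℕ) (l : ℕ → ℂ) (v : ℕ) : List ℂ := (Nat.digits s v).map l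

section words

variable {s : ℕ} {l : ℕ → ℂ}

theorem wd_cons (hs : 2 ≤ s) {v : ℕ} (h : v ≠ 0) : wd s l v = l (v % s) :: wd s l (v / s) := by
  rw [wd, Nat.digits_def' hs (Nat.pos_of_ne_zero h), List.map_cons, wd]

theorem wd_nil {v : ℕ} : wd s l v = [] ↔ v = 0 := by simp [wd, Nat.digits_eq_nil_iff_eq_zero]

theorem wd_mem (hs : 2 ≤ s) (h : ∀ i < s, l i ∈ S) (v : ℕ) : ∀ a ∈ wd s l v, a ∈ S :=
  List.forall_mem_map.2 fun _ hi => h _ (Nat.digits_lt_base hs hi)

theorem wd_gd (hs : 2 ≤ s) (h : ∀ i < s, ∀ t ∈ II, (t : ℂ) ≠ l i) (h0 : ∀ i < s, l i = 0 → i = 0)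
    (v : ℕ) : Gd (wd s l v) := by
  induction v using Nat.strong_induction_on with
  | _ v ih =>
  by_cases hv : v = 0
  · rw [wd_nil.2 hv]; trivial
  have h1 := Nat.mod_lt v (show 0 < s by omega)
  rw [wd_cons hs hv]
  refine ⟨h _ h1, fun e e' => hv ?_, ih _ (Nat.div_lt_self (by omega) hs)⟩
  rw [← Nat.div_add_mod v s, h0 _ h1 e, wd_nil.1 e']
  simp

end words

theorem exists_mom (hS : ∀ a ∈ S, ∀ t ∈ II, (t : ℂ) ≠ a) {s : ℕ} (hs : 2 ≤ s) {l l' : ℕ → ℂ}
    (hl : ∀ i < s, l i ∈ S) (hl' : ∀ i < s, l' i ∈ S) (g : ∀ v, Gd (fl (wd s l v)))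
    (g' : ∀ v, Gd (wd s l' v)) : ∃ (c : Bool → ℕ → ℕ → ℂ) (m : ℕ → ℕ → ℕ → ℂ),
    RecS s (fun v => (wd s l v).headD 1) (fun w => (wd s l' w).headD 0) c m ∧ c true 0 0 = 1 ∧
    (∀ b v w, c b v w ∈ ZS K S (dp s v + dp s w)) ∧
      ∀ j v w, Pr (fun t => t ^ j * PQ (wd s l v) (wd s l' w) t) (m j v w) := by
  choose c h1 h2 h3 using fun v w => step (K := K) hS (g v) (g' w) (wd_mem hs hl v)
    (wd_mem hs hl' w)
  have tl : ∀ (l : ℕ → ℂ) v, wd s l v ≠ [] → (wd s l v).tail = wd s l (v / s) :=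
    fun l v h => by rw [wd_cons hs (mt wd_nil.2 h), List.tail_cons]
  have h4 : ∀ k v w, v + w = k → ∀ j : ℕ,
      ∃ x, Pr (fun t => t ^ j * PQ (wd s l v) (wd s l' w) t) x := fun k => by
    induction k using Nat.strong_induction_on with
    | _ k ih =>
    intro v w hk j
    have a1 : ∀ i : ℕ, ∃ x, wd s l v ≠ [] →
        Pr (fun t => t ^ i * PQ (wd s l v).tail (wd s l' w) t) x := fun i => by
      by_cases hv : v = 0
      · exact ⟨0, fun h => absurd (wd_nil.2 hv) h⟩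
      · exact (ih _ (by have := Nat.div_lt_self (Nat.pos_of_ne_zero hv) hs; omega) (v / s) w
          rfl i).imp fun _ h h' => tl l v h' ▸ h
    have a2 : ∀ i : ℕ, ∃ x, wd s l' w ≠ [] →
        Pr (fun t => t ^ i * PQ (wd s l v) (wd s l' w).tail t) x := fun i => by
      by_cases hw : w = 0
      · exact ⟨0, fun h => absurd (wd_nil.2 hw) h⟩
      · exact (ih _ (by have := Nat.div_lt_self (Nat.pos_of_ne_zero hw) hs; omega) v (w / s)
          rfl i).imp fun _ h h' => tl l' w h' ▸ h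
    choose m1 a1 using a1
    choose m2 a2 using a2
    have a3 : (j : ℂ) + 1 ≠ 0 := by exact_mod_cast j.succ_ne_zero
    exact ⟨_, ((h3 v w j m1 m2 (fun h i => a1 i h) fun h i => a2 i h).cmul ((j : ℂ) + 1)⁻¹).congr
      (fun t _ => (inv_mul_cancel_left₀ a3 _).symm) rfl⟩
  choose m h4 using fun j v w => h4 _ v w rfl j
  refine ⟨fun b v w => c v w b, m, fun j v w => ?_, h1 0 0 ⟨wd_nil.2 rfl, wd_nil.2 rfl⟩,
    fun b v w => by simpa [wd, dp] using h2 v w b, h4⟩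
  simpa only [lm, List.length_eq_zero_iff, wd_nil] using ((h4 j v w).cmul _).uniq
    (h3 v w j _ _ (fun h i => tl l v h ▸ h4 i _ _) fun h i => tl l' w h ▸ h4 i _ _)

end Pool.Agent.Lib.MP_12eca1_ag.MY
end

-- part Pool.Agent.Lib.MP_12eca1_ag.Y.Shf
section

/-! The shuffle product and the monotonicity of the dimensions. -/

namespace Pool.Agent.Lib.MP_12eca1_ag.MY

open Set Filter Topology Module Pool.Agent.Lib.MP_12eca1_ag.MZ

variable (K : IntermediateField ℚ ℂ) (S : Finset ℂ)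

/-- the span of the functions of weight `j` -/
noncomputable def FS (j : ℕ) : Submodule K (ℝ → ℂ) :=
  Submodule.span K {f | ∃ u : List ℂ, u.length = j ∧ (∀ a ∈ u, a ∈ S) ∧ Gd u ∧ f = itInt u}

variable {K S}

theorem FS_int (hS : ∀ a ∈ S, ∀ t ∈ II, (t : ℂ) ≠ a) {a : ℂ} (ha : a ∈ S) {j : ℕ}
    (hj : a = 0 → 0 < j) {b : ℝ → ℂ} (h : b ∈ FS K S j) : ∃ c ∈ FS K S (j + 1),
      Tendsto c (𝓝[>] 0) (𝓝 0) ∧ (∀ t ∈ II, HasDerivAt c (b t / (t - a)) t) ∧
      (a ≠ 1 → ∃ y ∈ ZS K S (j + 1), Tendsto c (𝓝[<] 1) (𝓝 y)) := by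
  induction h using Submodule.span_induction with
  | mem f hf =>
    obtain ⟨u, rfl, h1, h2, rfl⟩ := hf
    have h3 : Gd (a :: u) := ⟨hS a ha, fun e => List.length_pos_iff.1 (hj e), h2⟩
    have h4 := List.forall_mem_cons.2 ⟨ha, h1⟩
    exact ⟨_, Submodule.subset_span ⟨a :: u, rfl, h4, h3, rfl⟩, h3.lim0, fun t ht => h3.der ht,
      fun e => ⟨_, h3.mem e h4, h3.lim1 e⟩⟩
  | zero =>
    exact ⟨0, zero_mem _, tendsto_const_nhds, fun t _ => by simp,
      fun _ => ⟨0, zero_mem _, tendsto_const_nhds⟩⟩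
  | add f g _ _ hf hg =>
    obtain ⟨c, h1, h2, h3, h4⟩ := hf
    obtain ⟨d, h5, h6, h7, h8⟩ := hg
    refine ⟨c + d, add_mem h1 h5, by simpa [Pi.add_def] using h2.add h6,
      fun t ht => ((h3 t ht).add (h7 t ht)).congr_deriv (by simp [add_div]), fun e => ?_⟩
    obtain ⟨y, p1, p2⟩ := h4 e
    obtain ⟨z, p3, p4⟩ := h8 e
    exact ⟨y + z, add_mem p1 p3, p2.add p4⟩
  | smul q f _ hf =>
    obtain ⟨c, h1, h2, h3, h4⟩ := hf
    refine ⟨q • c, Submodule.smul_mem _ q h1, (mul_zero (q : ℂ) ▸ h2.const_mul (q : ℂ) :),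
      fun t ht => ((h3 t ht).const_mul (q : ℂ)).congr_deriv (mul_div_assoc _ _ _).symm,
      fun e => ?_⟩
    obtain ⟨y, p1, p2⟩ := h4 e
    exact ⟨q • y, Submodule.smul_mem _ q p1, p2.const_mul (q : ℂ)⟩

theorem prod_mem (hS : ∀ a ∈ S, ∀ t ∈ II, (t : ℂ) ≠ a) (n : ℕ) : ∀ u v : List ℂ,
    u.length + v.length = n → Gd u → Gd v → (∀ a ∈ u, a ∈ S) → (∀ a ∈ v, a ∈ S) →
    ∃ b ∈ FS K S n, (∀ t ∈ II, itInt u t * itInt v t = b t) ∧
      (u.head? ≠ some 1 → v.head? ≠ some 1 → itInt u 1 * itInt v 1 ∈ ZS K S n) := by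
  induction n using Nat.strong_induction_on with
  | _ n ih =>
  intro u v hn hu hv hu' hv'
  cases u with
  | nil =>
    exact ⟨_, Submodule.subset_span ⟨v, by simpa using hn, hv', hv, rfl⟩, fun t _ => one_mul _,
      fun _ h => Submodule.subset_span ⟨v, by simpa using hn, hv', h, ((gd_iff v).1 hv).2,
        one_mul _⟩⟩
  | cons a u =>
  cases v with
  | nil =>
    exact ⟨_, Submodule.subset_span ⟨_, hn, hu', hu, rfl⟩, fun t _ => mul_one _,
      fun h _ => Submodule.subset_span ⟨_, hn, hu', h, ((gd_iff _).1 hu).2, mul_one _⟩⟩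
  | cons a' v =>
  simp only [List.length_cons] at hn
  obtain ⟨k, rfl⟩ : ∃ k, n = k + 1 := ⟨n - 1, by omega⟩
  obtain ⟨b1, h1, h2, -⟩ := ih k k.lt_succ_self u (a' :: v) (by simp; omega) hu.2.2 hv
    (List.forall_mem_cons.1 hu').2 hv'
  obtain ⟨b2, h3, h4, -⟩ := ih k k.lt_succ_self (a :: u) v (by simp; omega) hu hv.2.2 hu'
    (List.forall_mem_cons.1 hv').2
  obtain ⟨c1, p1, p2, p3, p4⟩ := FS_int hS (List.forall_mem_cons.1 hu').1 (fun _ => by omega) h1
  obtain ⟨c2, q1, q2, q3, q4⟩ := FS_int hS (List.forall_mem_cons.1 hv').1 (fun _ => by omega) h3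
  have h5 : ∀ t ∈ II, itInt (a :: u) t * itInt (a' :: v) t = (c1 + c2) t := fun t ht =>
    uniq (fun t ht => (hu.der ht).mul (hv.der ht))
      (fun t ht => ((p3 t ht).add (q3 t ht)).congr_deriv (by rw [← h2 t ht, ← h4 t ht]; ring))
      (by simpa [Pi.mul_def] using hu.lim0.mul hv.lim0)
      (by simpa [Pi.add_def] using p2.add q2) ht
  refine ⟨_, add_mem p1 q1, h5, fun e e' => ?_⟩
  simp only [List.head?_cons, ne_eq, Option.some.injEq] at e e'
  obtain ⟨y, r1, r2⟩ := p4 e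
  obtain ⟨z, r3, r4⟩ := q4 e'
  rw [tendsto_nhds_unique ((hu.lim1 e).mul (hv.lim1 e'))
    ((r2.add r4).congr' (ev1.mono fun t ht => (h5 t ht).symm))]
  exact add_mem r1 r3

theorem ZS_mul (hS : ∀ a ∈ S, ∀ t ∈ II, (t : ℂ) ≠ a) {j k : ℕ} {y z : ℂ} (hy : y ∈ ZS K S j)
    (hz : z ∈ ZS K S k) : y * z ∈ ZS K S (j + k) := by
  refine (Submodule.mul_le (M := ZS K S j) (N := ZS K S k)).1 ?_ y hy z hz
  rw [ZS, ZS, Submodule.span_mul_span, Submodule.span_le]
  rintro _ ⟨_, ⟨u, rfl, h1, h2, h3, rfl⟩, _, ⟨v, rfl, h4, h5, h6, rfl⟩, rfl⟩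
  obtain ⟨_, -, -, h7⟩ := prod_mem (K := K) hS _ u v rfl
    ((gd_iff u).2 ⟨fun a ha => hS a (h1 a ha), h3⟩) ((gd_iff v).2 ⟨fun a ha => hS a (h4 a ha), h6⟩)
    h1 h4
  exact h7 h2 h5

instance (j : ℕ) : FiniteDimensional K (ZS K S j) :=
  FiniteDimensional.span_of_finite K (((List.finite_length_eq S j).image
    fun u => itInt (u.map (↑)) 1).subset (by
      rintro _ ⟨u, h1, h2, -, -, rfl⟩
      lift u to List S using h2
      exact ⟨u, by simpa using h1, rfl⟩))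

theorem log_ne {a : ℂ} (h : Gd [a]) (h1 : a ≠ 1) : itInt [a] 1 ≠ 0 := fun e => by
  have h2 : ∀ x : ℝ, Tendsto (fun t : ℝ => (t : ℂ) - a) (𝓝 x) (𝓝 (x - a)) :=
    fun x => (Complex.continuous_ofReal.tendsto x).sub_const a
  have h3 : Pr (fun _ => 0) 1 := ⟨fun t => Complex.exp (-itInt [a] t) * (t - a), -a,
    fun t ht => ((h.der ht).neg.cexp.mul
      ((hasDerivAt_id (t : ℂ)).comp_ofReal.sub_const a)).congr_deriv (by
        have := sub_ne_zero.2 (h.1 t ht)
        simp only [itInt, id]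
        field_simp
        ring),
    by simpa using h.lim0.neg.cexp.mul ((h2 0).mono_left nhdsWithin_le_nhds),
    by simpa [e, neg_add_eq_sub] using
      (h.lim1 h1).neg.cexp.mul ((h2 1).mono_left nhdsWithin_le_nhds)⟩
  exact one_ne_zero (h3.uniq pr_zero)

theorem lower {a : ℂ} {u : List ℂ} (h : Gd (a :: u))
    (h1 : ∀ t ∈ II, 1 ≤ -(itInt u t / (t - a)).re) {t : ℝ} (ht : t ∈ II) :
    t ≤ -(itInt (a :: u) t).re := by
  have h2 : ∀ t ∈ II, HasDerivAt (fun t => -(itInt (a :: u) t).re - t)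
      (-(itInt u t / (t - a)).re - 1) t := fun t ht =>
    (Complex.reCLM.hasFDerivAt.comp_hasDerivAt t (h.der ht)).neg.sub (hasDerivAt_id t)
  have h3 := monotoneOn_of_hasDerivWithinAt_nonneg (convex_Ioo (0 : ℝ) 1)
    (fun t ht => (h2 t ht).continuousAt.continuousWithinAt)
    (fun t ht => (h2 t (interior_subset ht)).hasDerivWithinAt)
    fun t ht => sub_nonneg.2 (h1 t (interior_subset ht))
  have h4 := ((Complex.continuous_re.tendsto _).comp h.lim0).neg.sub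
    ((tendsto_id (x := 𝓝 (0 : ℝ))).mono_left (nhdsWithin_le_nhds (s := Ioi 0)))
  have h5 := le_of_tendsto h4 (mem_of_superset (Ioo_mem_nhdsGT ht.1)
    fun s hs => h3 ⟨hs.1, hs.2.trans ht.2⟩ ht hs.2.le)
  simpa using h5

theorem zeta_ne {u : List ℂ} (h : Gd (0 :: u)) (h1 : ∀ t ∈ II, t ≤ -(itInt u t).re) :
    (∀ t ∈ II, t ≤ -(itInt (0 :: u) t).re) ∧ itInt (0 :: u) 1 ≠ 0 := by
  have h2 := fun t ht => lower h (t := t) (fun t ht => by
    rw [sub_zero, Complex.div_ofReal_re, ← neg_div, le_div_iff₀ ht.1, one_mul]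
    exact h1 t ht) ht
  refine ⟨h2, fun e => ?_⟩
  have := le_of_tendsto_of_tendsto ((tendsto_id (x := 𝓝 (1 : ℝ))).mono_left nhdsWithin_le_nhds)
    ((Complex.continuous_re.tendsto _).comp (h.lim1 zero_ne_one)).neg (ev1.mono h2)
  simp [e] at this
  linarith

theorem exists_ne (hS : ∀ a ∈ S, ∀ t ∈ II, (t : ℂ) ≠ a) (h : 2 ≤ S.card) :
    (∃ z ∈ ZS K S 2, z ≠ 0) ∧ ∃ z ∈ ZS K S 3, z ≠ 0 := by
  by_cases h1 : ∃ a ∈ S, a ≠ 0 ∧ a ≠ 1
  · obtain ⟨a, h2, h3, h4⟩ := h1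
    have h5 : Gd [a] := ⟨hS a h2, fun e => absurd e h3, trivial⟩
    have h6 : itInt [a] 1 ∈ ZS K S 1 := h5.mem h4 (by simpa using h2)
    have h7 := log_ne h5 h4
    have h8 := ZS_mul hS h6 h6
    have h9 := ZS_mul hS h8 h6
    exact ⟨⟨_, h8, mul_ne_zero h7 h7⟩, _, h9, mul_ne_zero (mul_ne_zero h7 h7) h7⟩
  have h2 : S = {0, 1} := Finset.eq_of_subset_of_card_le (fun a ha => by
    by_contra h2
    exact h1 ⟨a, ha, by simpa [not_or] using h2⟩) (Finset.card_le_two.trans h)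
  have g1 : Gd [1] := ⟨fun t ht => by exact_mod_cast ht.2.ne, by simp, trivial⟩
  have g2 : Gd [0, 1] := ⟨fun t ht => ne0 ht, by simp, g1⟩
  have g3 : Gd [0, 0, 1] := ⟨fun t ht => ne0 ht, by simp, g2⟩
  have h3 := zeta_ne g2 fun t ht => lower g1 (fun t ht => by
    rw [itInt, show (t : ℂ) - 1 = (t - 1 : ℝ) by simp, Complex.div_ofReal_re, ← div_neg, neg_sub,
      le_div_iff₀ (II_sub ht).1]
    simpa using ht.1.le) ht
  exact ⟨⟨_, g2.mem zero_ne_one (by simp [h2]), h3.2⟩, _, g3.mem zero_ne_one (by simp [h2]),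
    (zeta_ne g3 h3.1).2⟩

theorem ZS_mono (hS : ∀ a ∈ S, ∀ t ∈ II, (t : ℂ) ≠ a) (h : 2 ≤ S.card) (j k : ℕ) :
    finrank K (ZS K S j) ≤ finrank K (ZS K S (j + 2 + k)) := by
  have h1 : ∀ i, (∃ z ∈ ZS K S i, z ≠ 0) → ∀ j,
      finrank K (ZS K S j) ≤ finrank K (ZS K S (j + i)) := fun i ⟨z, h1, h2⟩ j =>
    LinearMap.finrank_le_finrank_of_injective
      (f := (LinearMap.mulRight K z).restrict fun _ hy => ZS_mul hS hy h1)
      fun _ _ e => Subtype.ext (mul_right_cancel₀ h2 (congrArg Subtype.val e))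
  obtain ⟨h2, h3⟩ := exists_ne (K := K) hS h
  induction k using Nat.twoStepInduction with
  | zero => exact h1 2 h2 j
  | one => exact h1 3 h3 j
  | more k ih _ => exact ih.trans (h1 2 h2 _)

theorem ZS_pos (hS : ∀ a ∈ S, ∀ t ∈ II, (t : ℂ) ≠ a) (h : 2 ≤ S.card) {w : ℕ} (hw : 2 ≤ w) :
    1 ≤ finrank K (ZS K S w) := by
  have h1 := ZS_mono (K := K) hS h 0 (w - 2)
  rw [show 0 + 2 + (w - 2) = w by omega] at h1
  refine le_trans (Submodule.one_le_finrank_iff.2 fun e => ?_) h1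
  have : (1 : ℂ) ∈ ZS K S 0 := Submodule.subset_span ⟨[], rfl, by simp, by simp, by simp, rfl⟩
  simp [e] at this

theorem span_dim3 {δ : ℕ} (W : ℕ) (h : ∀ j < W, finrank K (ZS K S j) ≤ δ) :
    ∃ E : Submodule K ℂ, FiniteDimensional K E ∧ finrank K E ≤ W * δ ∧ ∀ j < W, ZS K S j ≤ E := by
  induction W with
  | zero => exact ⟨⊥, inferInstance, by simp, by simp⟩
  | succ W ih =>
    obtain ⟨E, h1, h2, h3⟩ := ih fun j hj => h j (by omega)
    refine ⟨E ⊔ ZS K S W, inferInstance, (Submodule.finrank_add_le_finrank_add_finrank _ _).trans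
      (by rw [Nat.succ_mul]; exact add_le_add h2 (h W W.lt_succ_self)), fun j hj => ?_⟩
    rcases (Nat.le_of_lt_succ hj).eq_or_lt with rfl | hj
    exacts [le_sup_right, (h3 j hj).trans le_sup_left]

end Pool.Agent.Lib.MP_12eca1_ag.MY
end

-- part Pool.Agent.Lib.MP_12eca1_ag.Y.Cnt
section

/-! Pigeonhole principles and the entropy of spaces of holomorphic functions. -/

namespace Pool.Agent.Lib.MP_12eca1_ag.MY

open Matrix Finset Module Metric Pool.Agent.Lib.MP_dda4e9_nt.LB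

variable {ι κ : Type*} [Fintype ι] [Fintype κ]

/-- among more than `Y` points of the box two have a difference with the property `Sm` -/
def Pig (X Y : ℕ) (Sm : (ι → ℤ) → Prop) : Prop := ∃ φ : (ι → Fin (X + 1)) → Fin Y,
  ∀ J J', φ J = φ J' → Sm fun i => (J i : ℕ) - (J' i : ℕ)

theorem countY (B : κ → ι → ℂ) (hB : LinearIndependent ℂ B) {X Y : ℕ} {Sm : (ι → ℤ) → Prop}
    (hP : Pig X Y Sm) (h : ∀ J, Sm J → ∀ k, ∑ i, B k i * J i = 0) :
    (X + 1) ^ Fintype.card κ ≤ Y := by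
  classical
  obtain ⟨φ, hφ⟩ := hP
  obtain ⟨Q, I, p1, p2, p3, p4⟩ := greedy (Set.range B)
  have h1 : Fintype.card κ ≤ Iᶜ.card := by
    have h2 : ∀ k, B k ∈ Submodule.span ℂ ((Iᶜ.image Q : Finset (ι → ℂ)) : Set (ι → ℂ)) :=
      fun k => by
        have : B k = ∑ i, (Q.det⁻¹ * (Q.updateRow i (B k)).det) • Q i := by
          ext j
          simp only [Finset.sum_apply, Pi.smul_apply, smul_eq_mul, mul_assoc, ← mul_sum,
            ← expand, inv_mul_cancel_left₀ p1]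
        rw [this]
        refine Submodule.sum_mem _ fun i _ => ?_
        by_cases hi : i ∈ I
        · simp [p4 i hi _ ⟨k, rfl⟩]
        · exact Submodule.smul_mem _ _ (Submodule.subset_span (by simpa using ⟨i, hi, rfl⟩))
    have h3 := (LinearIndependent.of_comp (Submodule.subtype _)
      (v := fun k => (⟨B k, h2 k⟩ : Submodule.span ℂ _)) hB).fintype_card_le_finrank
    exact h3.trans ((finrank_span_finset_le_card _).trans card_image_le)
  let Φ : (ι → Fin (X + 1)) → Fin Y × (I → Fin (X + 1)) := fun J => (φ J, fun i => J i)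
  have hΦ : Function.Injective Φ := fun J J' hJ => by
    have e2 : ∀ i ∈ I, J i = J' i := fun i hi => congrFun (congrArg Prod.snd hJ) ⟨i, hi⟩
    have e3 := h _ (hφ J J' (congrArg Prod.fst hJ))
    have e4 : Q *ᵥ (fun i => (((J i : ℕ) - (J' i : ℕ) : ℤ) : ℂ)) = 0 := funext fun i => by
      by_cases hi : i ∈ I
      · simp [mulVec, p2 i hi, e2 i hi]
      · obtain ⟨k, hk⟩ := p3 i hi
        simpa only [mulVec, dotProduct, ← hk, Pi.zero_apply] using e3 k
    have e5 := eq_zero_of_mulVec_eq_zero p1 e4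
    ext i
    have := congrFun e5 i
    simp only [Pi.zero_apply, Int.cast_eq_zero] at this
    omega
  have h4 := Fintype.card_le_of_injective Φ hΦ
  simp only [Fintype.card_fun, Fintype.card_fin, Fintype.card_prod, Fintype.card_coe] at h4
  rw [← card_compl_add_card I, pow_add] at h4
  exact (Nat.pow_le_pow_right (Nat.succ_pos _) h1).trans
    (Nat.le_of_mul_le_mul_right h4 (by positivity))

theorem count1Y (U : Submodule ℂ (ι → ℂ)) {X Y : ℕ} {Sm : (ι → ℤ) → Prop} (hP : Pig X Y Sm)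
    (h : ∀ J, Sm J → ∀ y ∈ U, ∑ i, y i * J i = 0) : (X + 1) ^ finrank ℂ U ≤ Y := by
  simpa using countY (fun k => (finBasis ℂ U k : ι → ℂ))
    ((finBasis ℂ U).linearIndependent.map' U.subtype U.ker_subtype) hP
    fun J h1 k => h J h1 _ (finBasis ℂ U k).2

theorem count2Y (B : κ → ι → ℂ) (hB : LinearIndependent ℂ B) {X Y : ℕ} {Sm : (ι → ℤ) → Prop}
    {Sm' : (κ → ℤ) → Prop} (hP : Pig X Y Sm) (hP' : Pig X Y Sm')
    (h : ∀ A, Sm' A → ∀ J, Sm J → ∑ k, ∑ i, A k * (B k i * J i) = 0) :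
    (X + 1) ^ Fintype.card κ ≤ Y * Y := by
  classical
  let V : Submodule ℂ (κ → ℂ) := Submodule.span ℂ {y | ∃ A, Sm' A ∧ y = fun k => (A k : ℂ)}
  have h1 := count1Y (V.map (Fintype.linearCombination ℂ B)) hP fun J a1 => by
    rintro _ ⟨y, hy, rfl⟩
    induction hy using Submodule.span_induction with
    | mem y hy =>
      obtain ⟨A, a3, rfl⟩ := hy
      rw [← h A a3 J a1, sum_comm]
      simp [Fintype.linearCombination_apply, sum_mul, mul_assoc]
    | zero => simp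
    | add y z _ _ hy hz => simp only [map_add, Pi.add_apply, add_mul, sum_add_distrib, hy, hz, add_zero]
    | smul a y _ hy =>
      simp only [map_smul, Pi.smul_apply, smul_eq_mul, mul_assoc, ← mul_sum, hy, mul_zero]
  let ψ : Dual ℂ (κ → ℂ) →ₗ[ℂ] κ → ℂ := LinearMap.pi fun k => Dual.eval ℂ _ (Pi.single k 1)
  have hψ : ∀ φ y, ∑ k, ψ φ k * y k = φ y := fun φ y => by
    conv_rhs => rw [← univ_sum_single y, map_sum]
    refine sum_congr rfl fun k _ => ?_
    rw [show Pi.single k (y k) = y k • (Pi.single k 1 : κ → ℂ) by simp [← Pi.single_smul],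
      map_smul]
    simp [ψ, mul_comm]
  have h2 := count1Y (V.dualAnnihilator.map ψ) hP' fun A a1 => by
    rintro _ ⟨φ, hφ, rfl⟩
    rw [hψ]
    exact (Submodule.mem_dualAnnihilator φ).1 hφ _ (Submodule.subset_span ⟨A, a1, rfl⟩)
  rw [← (Submodule.equivMapOfInjective _
    (linearIndependent_iff_injective_fintypeLinearCombination.1 hB) V).finrank_eq] at h1
  rw [← (Submodule.equivMapOfInjective ψ ((injective_iff_map_eq_zero _).2 fun φ e =>
    LinearMap.ext fun y => by simp [← hψ, e]) _).finrank_eq] at h2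
  have h3 := Subspace.finrank_add_finrank_dualAnnihilator_eq V
  rw [finrank_fintype_fun_eq_card] at h3
  rw [← h3, pow_add]
  exact Nat.mul_le_mul h1 h2

theorem cell {E : ℝ} (hE : 0 ≤ E) (M : ℕ) : ∃ ψ : ℝ → Fin (2 ^ (M + 2)), ∀ x y, |x| ≤ E →
    |y| ≤ E → ψ x = ψ y → |x - y| ≤ (1 / 2) ^ M * E := by
  rcases hE.eq_or_lt with rfl | hE
  · exact ⟨fun _ => 0, fun x y hx hy _ => by simp [abs_nonpos_iff.1 hx, abs_nonpos_iff.1 hy]⟩
  refine ⟨fun x => Fin.ofNat _ ⌊(x + E) / E * 2 ^ M⌋₊, fun x y hx hy h => ?_⟩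
  have h1 : ∀ x, |x| ≤ E → 0 ≤ (x + E) / E * 2 ^ M ∧ ⌊(x + E) / E * 2 ^ M⌋₊ < 2 ^ (M + 2) :=
    fun x hx => by
      have h2 : 0 ≤ (x + E) / E * 2 ^ M := by
        have : 0 ≤ x + E := by linarith [(abs_le.1 hx).1]
        positivity
      refine ⟨h2, (Nat.floor_lt h2).2 ?_⟩
      have h3 : (x + E) / E ≤ 2 := by rw [div_le_iff₀ hE]; linarith [(abs_le.1 hx).2]
      have h4 : (0 : ℝ) < 2 ^ M := by positivity
      push_cast
      rw [pow_add]
      nlinarith
  have h2 := congrArg Fin.val h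
  simp only [Fin.val_ofNat, Nat.mod_eq_of_lt (h1 x hx).2, Nat.mod_eq_of_lt (h1 y hy).2] at h2
  have h3 := Nat.floor_le (h1 x hx).1
  have h4 := Nat.floor_le (h1 y hy).1
  have h5 := Nat.lt_floor_add_one ((x + E) / E * 2 ^ M)
  have h6 := Nat.lt_floor_add_one ((y + E) / E * 2 ^ M)
  rw [h2] at h3 h5
  have h7 : x - y = ((x + E) / E * 2 ^ M - (y + E) / E * 2 ^ M) * ((1 / 2) ^ M * E) := by
    rw [one_div, inv_pow]
    field_simp
    ring
  rw [h7, abs_mul, abs_of_nonneg (a := _ * E) (by positivity)]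
  exact mul_le_of_le_one_left (by positivity) (abs_le.2 ⟨by linarith, by linarith⟩)

theorem entropy (b : ι → ℂ → ℂ) {r : ℕ} (hr : 0 < r) {B : ℝ} (hB0 : 0 ≤ B)
    (hd : ∀ p, ∀ k < r, DifferentiableOn ℂ (b p) (closedBall ((k / (2 * r) : ℝ) : ℂ) (2 / r)))
    (hB : ∀ p, ∀ k < r, ∀ z ∈ closedBall ((k / (2 * r) : ℝ) : ℂ) (2 / r), ‖b p z‖ ≤ B)
    (X M : ℕ) : Pig X (2 ^ ((M + 2) * (2 * (r * M)))) fun J => (∀ i, |J i| ≤ X) ∧
      ∀ t : ℝ, 0 < t → t ≤ 1 / 2 →
        ‖∑ p, b p t * J p‖ ≤ (1 / 2) ^ M * (4 * (Fintype.card ι * (B * X))) := by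
  classical
  set E : ℝ := Fintype.card ι * (B * X)
  have hE : 0 ≤ E := by positivity
  have hR : (0 : ℝ) < 2 / r := by positivity
  obtain ⟨ψ, hψ⟩ := cell hE M
  let γ : ι → ℕ → ℕ → ℂ := fun p k i => (i.factorial : ℂ)⁻¹ * (2 / r : ℝ) ^ i *
    iteratedDeriv i (b p) (k / (2 * r) : ℝ)
  have h1 : ∀ J : ι → ℤ, (∀ i, |J i| ≤ X) → ∀ k < r, ∀ i, ‖∑ p, γ p k i * J p‖ ≤ E :=
    fun J hJ k hk i => by
      refine (norm_sum_le _ _).trans ((sum_le_card_nsmul _ _ (B * X) fun p _ => ?_).trans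
        (by simp [E]))
      have h2 := Complex.norm_iteratedDeriv_le_of_forall_mem_sphere_norm_le i hR
        (DifferentiableOn.diffContOnCl (by rw [closure_ball _ hR.ne']; exact hd p k hk))
        fun z hz => hB p k hk z (sphere_subset_closedBall hz)
      rw [norm_mul, Complex.norm_intCast]
      refine mul_le_mul ?_ (by exact_mod_cast hJ p) (abs_nonneg _) hB0
      rw [norm_mul, norm_mul, norm_inv, norm_pow, Complex.norm_natCast, Complex.norm_real,
        Real.norm_of_nonneg hR.le]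
      refine (mul_le_mul_of_nonneg_left h2 (by positivity)).trans_eq ?_
      field_simp
  let L : (ι → Fin (X + 1)) → Fin r × Fin M → ℂ := fun J q => ∑ p, γ p q.1 q.2 * ((J p : ℕ) : ℤ)
  have h2 : ∀ J q, ‖L J q‖ ≤ E := fun J q =>
    h1 _ (fun i => by have := (J i).2; rw [abs_le]; omega) _ q.1.2 _
  refine ⟨fun J => Fintype.equivFinOfCardEq (by
      simp only [Fintype.card_fun, Fintype.card_prod, Fintype.card_fin, ← sq, ← pow_mul, mul_assoc])
    (fun q : Fin r × Fin M => (ψ (L J q).re, ψ (L J q).im)), fun J J' h => ?_⟩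
  have h3 := congrFun ((Fintype.equivFinOfCardEq _).injective h)
  have h4 : ∀ i, |((J i : ℕ) - (J' i : ℕ) : ℤ)| ≤ X := fun i => by
    have := (J i).2
    have := (J' i).2
    rw [abs_le]; omega
  refine ⟨h4, fun t h5 h6 => ?_⟩
  have hr' : (0 : ℝ) < r := by exact_mod_cast hr
  obtain ⟨k, hk, h7, h8⟩ : ∃ k < r, (k : ℝ) < 2 * r * t ∧ 2 * r * t ≤ k + 1 := by
    have h7 : 0 < ⌈2 * r * t⌉₊ := Nat.ceil_pos.2 (by positivity)
    have h8 : ⌈2 * r * t⌉₊ ≤ r := Nat.ceil_le.2 (by nlinarith)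
    refine ⟨⌈2 * r * t⌉₊ - 1, by omega, Nat.lt_ceil.1 (by omega), ?_⟩
    rw [Nat.cast_pred h7, sub_add_cancel]
    exact Nat.le_ceil _
  set x : ℝ := k / (2 * r)
  have h9 : |t - x| / (2 / r) ≤ 1 / 4 := by
    rw [show t - x = (2 * r * t - k) / (2 * r) by simp only [x]; field_simp,
      abs_of_nonneg (div_nonneg (by linarith) (by positivity)), div_le_iff₀ hR,
      div_le_iff₀ (by positivity)]
    field_simp
    linarith
  have h10 : ‖(t : ℂ) - x‖ = |t - x| := by rw [← Complex.ofReal_sub, Complex.norm_real]; rfl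
  have h11 := hasSum_sum (s := univ) fun p _ => (Complex.hasSum_taylorSeries_on_ball
    ((hd p k hk).mono ball_subset_closedBall) (z := t) (by
      rw [mem_ball_iff_norm, h10]
      rw [div_le_iff₀ hR] at h9
      linarith)).mul_right ((((J p : ℕ) - (J' p : ℕ) : ℤ) : ℂ))
  refine (h11.norm_le_of_bounded (hasSum_geometric_two.mul_left (2 * ((1 / 2) ^ M * E)))
    fun i => ?_).trans_eq (by ring)
  have h12 : ∑ p, ((i.factorial : ℂ)⁻¹ • ((t : ℂ) - x) ^ i • iteratedDeriv i (b p) x) *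
      (((J p : ℕ) - (J' p : ℕ) : ℤ) : ℂ) =
      (∑ p, γ p k i * ((J p : ℕ) - (J' p : ℕ) : ℤ)) * ((t - x) / (2 / r : ℝ)) ^ i := by
    rw [sum_mul]
    refine sum_congr rfl fun p _ => ?_
    have : ((2 / r : ℝ) : ℂ) ≠ 0 := by exact_mod_cast hR.ne'
    simp only [γ, x, smul_eq_mul, div_pow]
    field_simp
  have h13 : ‖(((t : ℂ) - x) / (2 / r : ℝ)) ^ i‖ ≤ (1 / 2) ^ i * (1 / 2) ^ i := by
    rw [norm_pow, norm_div, h10, Complex.norm_real, Real.norm_of_nonneg hR.le, ← mul_pow]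
    exact pow_le_pow_left₀ (by positivity) (h9.trans (by norm_num)) i
  rw [h12, norm_mul]
  refine (mul_le_mul_of_nonneg_left h13 (norm_nonneg _)).trans ?_
  rw [← mul_assoc]
  refine mul_le_mul_of_nonneg_right ?_ (by positivity)
  by_cases hi : i < M
  · have h14 := Prod.ext_iff.1 (h3 (⟨k, hk⟩, ⟨i, hi⟩))
    have h15 := hψ _ _ ((Complex.abs_re_le_norm _).trans (h2 _ _))
      ((Complex.abs_re_le_norm _).trans (h2 _ _)) h14.1
    have h16 := hψ _ _ ((Complex.abs_im_le_norm _).trans (h2 _ _))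
      ((Complex.abs_im_le_norm _).trans (h2 _ _)) h14.2
    have h17 : ∑ p, γ p k i * ((J p : ℕ) - (J' p : ℕ) : ℤ) =
        L J (⟨k, hk⟩, ⟨i, hi⟩) - L J' (⟨k, hk⟩, ⟨i, hi⟩) := by
      simp [L, mul_sub]
    refine (mul_le_of_le_one_right (norm_nonneg _) (pow_le_one₀ (by norm_num) (by norm_num))).trans
      ((Complex.norm_le_abs_re_add_abs_im _).trans ?_)
    rw [h17, Complex.sub_re, Complex.sub_im]
    linarith
  · have h14 : (1 / 2 : ℝ) ^ i ≤ (1 / 2) ^ M :=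
      pow_le_pow_of_le_one (by norm_num) (by norm_num) (not_lt.1 hi)
    have h15 := mul_le_mul (h1 _ h4 k hk i) h14 (by positivity) hE
    have h16 : 0 ≤ (1 / 2 : ℝ) ^ M * E := by positivity
    linarith

end Pool.Agent.Lib.MP_12eca1_ag.MY
end

-- part Pool.Agent.Lib.MP_12eca1_ag.Y.Ar
section

/-! Descent from a number field to the rationals. -/

namespace Pool.Agent.Lib.MP_12eca1_ag.MY

open Finset Module Pool.Agent.Lib.MP_dda4e9_nt.LB

theorem den {α : Type*} [Fintype α] (f : α → ℚ) :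
    ∃ D : ℕ, 0 < D ∧ ∃ z : α → ℤ, ∀ a, (z a : ℚ) = D * f a := by
  refine ⟨∏ p, (f p).den, prod_pos fun p _ => Rat.den_pos _, ?_⟩
  have : ∀ a, ∃ t : ℤ, (t : ℚ) = (∏ p, (f p).den : ℕ) * f a := fun a => by
    obtain ⟨t, ht⟩ := dvd_prod_of_mem (fun p => (f p).den) (mem_univ a)
    refine ⟨t * (f a).num, ?_⟩
    rw [ht]
    push_cast
    rw [← Rat.mul_den_eq_num]
    ring
  choose z hz using this
  exact ⟨z, hz⟩

theorem hg_sum {ι κ : Type*} [Fintype ι] {θ : ι → ℂ} (s : Finset κ) {Q : κ → ℝ} {z : κ → ℂ}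
    (h : ∀ i, Hg θ (Q i) (z i)) : Hg θ (∑ i ∈ s, Q i) (∑ i ∈ s, z i) := by
  classical
  induction s using Finset.induction_on with
  | empty => simpa using hg_zero le_rfl
  | insert a s ha ih => rw [sum_insert ha, sum_insert ha]; exact (h a).add ih

theorem exists_mu (K : IntermediateField ℚ ℂ) [FiniteDimensional ℚ K] (U : Finset ℂ)
    (hU : ∀ a ∈ U, a ∈ K) : ∃ (e : Option (Fin (finrank ℚ K)) → ℂ) (D C : ℕ), e none = 1 ∧
      (∀ i, e i ∈ K) ∧ 0 < D ∧ D ≤ C ∧ (∀ x ∈ K, ∃ q : _ → ℚ, ∑ i, q i * e i = x) ∧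
      ∀ (ρ : Type) [Fintype ρ] (c : ρ → ℂ), ∀ x, x ∈ U ∨ x ∈ Set.range e →
        Mu (fun p : _ × ρ => e p.1 * c p.2) D C x := by
  classical
  let b := finBasis ℚ K
  let e : Option (Fin (finrank ℚ K)) → ℂ := fun o => o.elim 1 fun i => b i
  have h1 : ∀ i, e i ∈ K := fun i => by
    cases i
    exacts [one_mem K, (b _).2]
  have h2 : ∀ x ∈ K, ∃ q : _ → ℚ, ∑ i, q i * e i = x := fun x hx =>
    ⟨fun o => o.elim 0 (b.repr ⟨x, hx⟩), by
      simpa [e, Rat.smul_def] using congrArg Subtype.val (b.sum_repr ⟨x, hx⟩)⟩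
  let V := U ∪ univ.image e
  have h3 : ∀ x : V, x.1 ∈ K := fun x => (mem_union.1 x.2).elim (hU _) fun h => by
    obtain ⟨i, -, h⟩ := mem_image.1 h
    exact h ▸ h1 i
  choose q hq using fun p : V × _ => h2 _ (mul_mem (h3 p.1) (h1 p.2))
  obtain ⟨D, hD, z, hz⟩ := den fun p : (V × _) × _ => q p.1 p.2
  refine ⟨e, D, D + ∑ p, (z p).natAbs, rfl, h1, hD, Nat.le_add_right _ _, h2,
    fun ρ _ c x hx Q y ⟨l, h4, h5⟩ => ?_⟩
  have hx' : x ∈ V := mem_union.2 (hx.imp id fun ⟨i, h⟩ => mem_image.2 ⟨i, mem_univ _, h⟩)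
  have h6 : ∀ p : _ × ρ, Hg (fun p : _ × ρ => e p.1 * c p.2) ((D + ∑ p, (z p).natAbs : ℕ) : ℝ)
      (D * x * (e p.1 * c p.2)) := fun p => by
    refine (hg_sum univ fun k => (hg_base (k, p.2)).mul (z ((⟨x, hx'⟩, p.1), k))).mono ?_ ?_
    · push_cast
      simp only [mul_one, Nat.cast_natAbs, Int.cast_abs]
      rw [Fintype.sum_prod_type]
      exact (single_le_sum (f := fun a => ∑ k, (|z (a, k)| : ℝ))
        (fun _ _ => sum_nonneg fun _ _ => abs_nonneg _) (mem_univ _)).trans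
        (le_add_of_nonneg_left D.cast_nonneg)
    · have : ∀ k, (z ((⟨x, hx'⟩, p.1), k) : ℂ) = D * q (⟨x, hx'⟩, p.1) k := fun k => by
        exact_mod_cast congrArg (Rat.cast (K := ℂ)) (hz ((⟨x, hx'⟩, p.1), k))
      simp only [this, mul_assoc, ← mul_sum]
      simp only [← mul_assoc, ← sum_mul, hq]
  refine (hg_sum univ fun p => (h6 p).mul (l p)).mono ?_ (by rw [h5, mul_sum]; simp [mul_left_comm])
  rw [← sum_mul, mul_comm]
  gcongr

theorem span_down {K : IntermediateField ℚ ℂ} {σ : Type*} [Fintype σ] {e : σ → ℂ} {D : ℕ}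
    (hD : 0 < D) (h : ∀ x ∈ K, ∃ q : σ → ℚ, ∑ i, q i * e i = x) {F : Set ℂ} {z : ℂ}
    (hz : z ∈ Submodule.span K F) : z ∈ Submodule.span ℚ {y | ∃ i, ∃ f ∈ F, y = D * e i * f} := by
  suffices ∀ x ∈ K, x * z ∈ Submodule.span ℚ {y | ∃ i, ∃ f ∈ F, y = D * e i * f} by
    simpa using this 1 (one_mem K)
  induction hz using Submodule.span_induction with
  | mem f hf =>
    intro x hx
    obtain ⟨q, rfl⟩ := h x hx
    rw [sum_mul]
    refine Submodule.sum_mem _ fun i _ => ?_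
    have : (D : ℂ) ≠ 0 := by exact_mod_cast hD.ne'
    rw [show q i * e i * f = (q i / D) • (D * e i * f) by rw [Rat.smul_def]; push_cast; field_simp]
    exact Submodule.smul_mem _ _ (Submodule.subset_span ⟨i, f, hf, rfl⟩)
  | zero => simp
  | add f g _ _ hf hg => exact fun x hx => mul_add x f g ▸ add_mem (hf x hx) (hg x hx)
  | smul q f _ hf => exact fun x hx => (mul_assoc x q f ▸ hf _ (mul_mem hx q.2) :)

theorem rank_down {K : IntermediateField ℚ ℂ} [FiniteDimensional ℚ K] (E : Submodule K ℂ)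
    [FiniteDimensional K E] {ι : Type*} {θ : ι → ℂ} (h : ∀ i, θ i ∈ E) :
    finrank ℚ (Submodule.span ℚ (Set.range θ)) ≤ finrank ℚ K * finrank K E := by
  have : FiniteDimensional ℚ E := Module.Finite.trans K E
  have : FiniteDimensional ℚ (E.restrictScalars ℚ) := this
  rw [finrank_mul_finrank]
  exact Submodule.finrank_mono (t := E.restrictScalars ℚ)
    (Submodule.span_le.2 (Set.range_subset_iff.2 h))

end Pool.Agent.Lib.MP_12eca1_ag.MY
end

-- part Pool.Agent.Lib.MP_12eca1_ag.Y.Main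
section

/-! The lower bound for the dimension of the space of iterated integrals. -/

namespace Pool.Agent.Lib.MP_12eca1_ag.MY

open Finset Module Filter Topology Metric Pool.Agent.Lib.MP_dda4e9_nt.LB
  Pool.Agent.Lib.MP_12eca1_ag.MZ

/-- the auxiliary function -/
noncomputable def au (u : ℕ → List ℂ) {N n : ℕ} (J : Fin N × Fin (n + 1) → ℤ) (t : ℝ) : ℂ :=
  ∑ p, t ^ (p.2 : ℕ) * itInt (u p.1) t * J p

/-- small auxiliary functions -/
def Sm (u : ℕ → List ℂ) {N n : ℕ} (M X : ℕ) (Q : ℝ) (J : Fin N × Fin (n + 1) → ℤ) : Prop :=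
  (∀ p, |J p| ≤ X) ∧ ∀ t ∈ II, ‖au u J t‖ ≤ Q / √(1 - t) ∧
    (t ≤ 1 / 2 → ‖au u J t‖ ≤ (1 / 2) ^ M * (4 * Q))

theorem cb_OO {r k : ℕ} (hr : 5 ≤ r) (hk : k < r) {z : ℂ}
    (hz : z ∈ closedBall ((k / (2 * r) : ℝ) : ℂ) (2 / r)) : z ∈ OO (3 / r) ∧ ‖z‖ ≤ 2 := by
  have h0 : (5 : ℝ) ≤ r := by exact_mod_cast hr
  have h1 : (k : ℝ) / (2 * r) ≤ 1 / 2 := by
    rw [div_le_div_iff₀ (by positivity) two_pos]
    have : (k : ℝ) ≤ r := by exact_mod_cast hk.le
    linarith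
  have h2 : (0 : ℝ) ≤ k / (2 * r) := by positivity
  have h3 : (2 : ℝ) / r ≤ 2 / 5 := by gcongr
  have h4 : (2 : ℝ) / r < 3 / r := by gcongr; norm_num
  rw [mem_closedBall_iff_norm] at hz
  have h5 := abs_le.1 ((Complex.abs_re_le_norm _).trans hz)
  have h6 := abs_le.1 ((Complex.abs_im_le_norm _).trans hz)
  have h7 := norm_sub_norm_le z (k / (2 * r) : ℝ)
  rw [Complex.norm_real, Real.norm_of_nonneg h2] at h7
  simp only [Complex.sub_re, Complex.ofReal_re, Complex.sub_im, Complex.ofReal_im] at h5 h6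
  exact ⟨⟨⟨show _ < z.re by linarith, show z.re < _ by linarith⟩, show _ < z.im by linarith,
    show z.im < _ by linarith⟩, by linarith⟩

theorem side {u : ℕ → List ℂ} (hu : ∀ v, Gd (u v)) {r : ℕ} (hr : 5 ≤ r)
    (ha : ∀ v, ∀ a ∈ u v, a ≠ 0 → a ∉ OO (3 / r)) (N0 : ℕ) : ∃ C0 : ℝ, 0 ≤ C0 ∧ ∀ C ≥ C0,
      ∀ N ≤ N0, ∀ n M X : ℕ, Pig X (2 ^ ((M + 2) * (2 * (r * M))))
        (Sm u (N := N) (n := n) M X (N0 * (n + 1) * (2 ^ n * C * X))) := by
  choose g h1 _ h2 using fun v => (hu v).hol (by positivity) (ha v)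
  choose c hc using fun v (k : Fin r) => (isCompact_closedBall _ _).exists_bound_of_continuousOn
    ((h1 v).continuousOn.mono fun z hz => (cb_OO hr k.2 hz).1)
  choose c' hc0 hc' using fun v => (hu v).bd.2
  have h3 : ∀ v, 0 ≤ ∑ k, |c v k| := fun v => sum_nonneg fun _ _ => abs_nonneg _
  have h4 : ∀ v, 0 ≤ ∑ k, |c v k| + c' v := fun v => add_nonneg (h3 v) (hc0 v)
  refine ⟨∑ v ∈ range N0, (∑ k, |c v k| + c' v), sum_nonneg fun v _ => h4 v,
    fun C hC N hN n M X => ?_⟩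
  have hC0 : 0 ≤ C := (sum_nonneg fun v _ => h4 v).trans hC
  have h5 : ∀ v : Fin N, ∑ k, |c v k| + c' v ≤ C := fun v =>
    (single_le_sum (fun v _ => h4 v) (mem_range.2 (v.2.trans_le hN))).trans hC
  have h6 : ∀ (p : Fin N × Fin (n + 1)) (z : ℂ), ‖z‖ ≤ 2 → ‖z ^ (p.2 : ℕ)‖ ≤ 2 ^ n :=
    fun p z hz => by
      rw [norm_pow]
      exact (pow_le_pow_left₀ (norm_nonneg _) hz _).trans
        (pow_le_pow_right₀ one_le_two (Nat.le_of_lt_succ p.2.2))
  have h7 : (Fintype.card (Fin N × Fin (n + 1)) : ℝ) ≤ N0 * (n + 1) := by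
    simp only [Fintype.card_prod, Fintype.card_fin]
    push_cast
    gcongr
  obtain ⟨φ, hφ⟩ := entropy (fun (p : Fin N × Fin (n + 1)) z => z ^ (p.2 : ℕ) * g p.1 z)
    (r := r) (by omega) (B := 2 ^ n * C) (by positivity)
    (fun p k hk => (differentiableOn_pow _).mul ((h1 _).mono fun z hz => (cb_OO hr hk hz).1))
    (fun p k hk z hz => by
      rw [norm_mul]
      refine mul_le_mul (h6 p z (cb_OO hr hk hz).2) ?_ (norm_nonneg _) (by positivity)
      have := single_le_sum (f := fun k => |c p.1 k|) (fun _ _ => abs_nonneg _)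
        (mem_univ ⟨k, hk⟩)
      linarith [hc p.1 ⟨k, hk⟩ z hz, le_abs_self (c p.1 ⟨k, hk⟩), h5 p.1, hc0 p.1]) X M
  refine ⟨φ, fun J J' h => ⟨(hφ J J' h).1, fun t ht => ⟨?_, fun h8 => ?_⟩⟩⟩
  · refine (norm_sum_le _ _).trans ((sum_le_card_nsmul _ _ (2 ^ n * (C / √(1 - t)) * X)
      fun p _ => ?_).trans ?_)
    · rw [norm_mul, norm_mul, Complex.norm_intCast]
      refine mul_le_mul (mul_le_mul (h6 p t (by simpa [abs_of_pos ht.1] using by linarith [ht.2]))
        ((hc' _ t ht).1.trans (div_le_div_of_nonneg_right ?_ (Real.sqrt_nonneg _)))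
        (norm_nonneg _) (by positivity)) (by exact_mod_cast (hφ J J' h).1 p) (abs_nonneg _)
        (by positivity)
      linarith [h5 p.1, h3 p.1]
    · rw [card_univ, nsmul_eq_mul]
      exact (mul_le_mul_of_nonneg_right h7 (by positivity)).trans_eq (by ring)
  · refine le_trans (le_of_eq ?_) (((hφ J J' h).2 t ht.1 h8).trans (by gcongr))
    simp only [au, h2 _ t ht]

theorem bil_sm {m : ℕ → ℕ → ℕ → ℂ} {u u' : ℕ → List ℂ}
    (hm : ∀ j v w, Pr (fun t => t ^ j * PQ (u v) (u' w) t) (m j v w)) {H N n M X : ℕ} {Q : ℝ}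
    (hQ : 0 ≤ Q) {A : Fin H × Fin (n + 1) → ℤ} {J : Fin N × Fin (n + 1) → ℤ}
    (hA : Sm (fun v => fl (u v)) M X Q A) (hJ : Sm u' M X Q J) :
    ‖bil m A J‖ ≤ 4 * ((1 / 2) ^ M * (4 * Q ^ 2)) := by
  have h1 : Pr (fun t => au (fun v => fl (u v)) A (1 - t) * au u' J t) (bil m A J) := by
    refine (Pr.sum univ fun p => Pr.sum univ fun q =>
      ((df_pr (fun i => hm i p.1 q.1) p.2 q.2).cmul (A p * J q))).congr (fun t _ => ?_) ?_
    · rw [au, au, sum_mul_sum]
      refine sum_congr rfl fun p _ => sum_congr rfl fun q _ => ?_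
      simp only [PQ]
      push_cast
      ring
    · exact sum_congr rfl fun p _ => sum_congr rfl fun q _ => by ring
  refine h1.bound (by positivity) fun t ht => ?_
  have h2 := hA.2 _ (II_sub ht)
  have h3 := hJ.2 _ ht
  rw [sub_sub_cancel] at h2
  rw [norm_mul, mul_add]
  rcases le_total t (1 / 2) with h4 | h4
  · exact ((mul_le_mul h2.1 (h3.2 h4) (norm_nonneg _) (by positivity)).trans_eq (by ring)).trans
      (le_add_of_nonneg_right (by positivity))
  · exact ((mul_le_mul (h2.2 (by linarith)) h3.1 (norm_nonneg _) (by positivity)).trans_eq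
      (by ring)).trans (le_add_of_nonneg_left (by positivity))

variable {K : IntermediateField ℚ ℂ} {S : Finset ℂ}

theorem one_mem3 {s : ℕ} {α β : ℕ → ℂ} {c : Bool → ℕ → ℕ → ℂ} {m : ℕ → ℕ → ℕ → ℂ} (hs : 2 ≤ s)
    (h0 : 0 ∈ S) (hK : ∀ a ∈ S, a ∈ K) (hα : Let S s α) (hβ : Let S s β) (a0 : α 0 = 1)
    (b0 : β 0 = 0) (h : RecS s α β c m) (hx : c true 0 0 = 1) {q n r G : ℕ} (hq : 2 ≤ q)
    (hn : 13 * S.card * (q * q) ≤ n) (hn0 : 0 < n) (hG : G ≠ 0)
    {P : (Fin (q * q) × Fin (n + 1) → ℤ) → Prop} {P' : (Fin (4 * (q * q)) × Fin (n + 1) → ℤ) → Prop}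
    (hP : Pig (2 ^ ((4 * r + 1) * n) - 1) (2 ^ ((q * n + 2) * (2 * (r * (q * n))))) P)
    (hP' : Pig (2 ^ ((4 * r + 1) * n) - 1) (2 ^ ((q * n + 2) * (2 * (r * (q * n))))) P') :
    (1 : ℂ) ∈ Submodule.span K {f | ∃ A J, P A ∧ P' J ∧ f = G * bil m A J} := by
  by_contra h1
  obtain ⟨φ, h2, h3⟩ := Submodule.exists_le_ker_of_notMem h1
  let Λ : ℂ →ₗ[ℚ] ℂ := (Algebra.linearMap K ℂ ∘ₗ φ).restrictScalars ℚ
  have hΛ : ∀ a ∈ S, ∀ z, Λ (a * z) = a * Λ z := fun a ha z =>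
    (Algebra.linearMap K ℂ ∘ₗ φ).map_smul ⟨a, hK a ha⟩ z
  have hz := zero_est4 hs h0 hα hβ a0 b0
    (h.map Λ (fun v => hΛ _ (hα.1 v)) fun v => hΛ _ (hβ.1 v)) (by simpa [Λ, hx] using h2) hn
  have h4 := count2Y _ hz hP' hP fun A hA J hJ => by
    have h5 : Λ (G * bil m A J) = 0 := by
      simp [Λ, LinearMap.mem_ker.1 (h3 (Submodule.subset_span ⟨A, J, hA, hJ, rfl⟩))]
    rw [← nsmul_eq_mul, map_nsmul, smul_eq_zero_iff_right hG, bil, map_sum] at h5
    rw [← h5]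
    refine sum_congr rfl fun p _ => ?_
    rw [map_sum]
    have e : ∀ (k : ℤ) z, Λ (k * z) = k * Λ z := fun k z => by
      rw [← zsmul_eq_mul, map_zsmul, zsmul_eq_mul]
    exact sum_congr rfl fun p _ => by rw [← df_map, mul_comm (df _ _ _), e, e, mul_comm (Λ _)]
  rw [Nat.sub_add_cancel Nat.one_le_two_pow, ← pow_mul, ← pow_add,
    Nat.pow_le_pow_iff_right one_lt_two] at h4
  simp only [Fintype.card_prod, Fintype.card_fin] at h4
  have h9 : (4 * r + 1) * (q * (n + 1)) ≤ 4 * r * (q * n + 2) :=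
    Nat.le_of_mul_le_mul_right (c := q * n) (by linarith) (by positivity)
  nlinarith [Nat.mul_le_mul_left r hq]

theorem enum (S : Finset ℂ) (h : 0 < S.card) (x : ℂ) : ∃ l : ℕ → ℂ, (∀ i < S.card, l i ∈ S) ∧
    (∀ i < S.card, ∀ j < S.card, l i = l j → i = j) ∧ ∀ i < S.card, l i = x → i = 0 := by
  classical
  let e := (Equiv.swap ⟨0, h⟩ (if hx : x ∈ S then S.equivFin ⟨x, hx⟩ else ⟨0, h⟩)).trans
    S.equivFin.symm
  refine ⟨fun i => if hi : i < S.card then e ⟨i, hi⟩ else 0, fun i hi => by simp [hi],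
    fun i hi j hj h1 => ?_, fun i hi h1 => ?_⟩
  · simpa [hi, hj, Subtype.val_inj] using h1
  simp only [hi, dif_pos] at h1
  have hx : x ∈ S := h1 ▸ (e _).2
  have h2 : e ⟨i, hi⟩ = ⟨x, hx⟩ := Subtype.ext h1
  simpa [e, hx, Equiv.symm_apply_eq, Equiv.swap_apply_eq_iff] using h2

theorem let_wd (hs : 2 ≤ S.card) {l : ℕ → ℂ} (h1 : ∀ i < S.card, l i ∈ S)
    (h2 : ∀ i < S.card, ∀ j < S.card, l i = l j → i = j) {U : Finset ℂ} (hU : S ⊆ U) {x : ℂ}
    (hx : x ∈ U) : Let U S.card fun v => (wd S.card l v).headD x := by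
  have h3 := fun v => Nat.mod_lt v (show 0 < S.card by omega)
  refine ⟨fun v => ?_, fun v hv v' hv' h4 h5 => ?_⟩
  · by_cases hv : v = 0
    · simpa [wd_nil.2 hv] using hx
    · simpa [wd_cons hs hv] using hU (h1 _ (h3 v))
  · simp only [wd_cons hs hv, wd_cons hs hv', List.headD_cons] at h5
    rw [← Nat.div_add_mod v' S.card, h4, h2 _ (h3 _) _ (h3 _) h5, Nat.div_add_mod]

theorem main3 [FiniteDimensional ℚ K] (hK : ∀ a ∈ S, a ∈ K) (hS : ∀ a ∈ S, ∀ t ∈ II, (t : ℂ) ≠ a)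
    (hs : 2 ≤ S.card) : ∃ B : ℕ, ∀ g δ : ℕ, 1 ≤ g → (∀ j < 4 * g + 3, finrank K (ZS K S j) ≤ δ) →
      S.card ^ g ≤ B * (g + 1) * (finrank ℚ K * ((4 * g + 3) * δ) + 1) := by
  classical
  obtain ⟨l, l1, l2, l3⟩ := enum S (by omega) 1
  obtain ⟨l', k1, k2, k3⟩ := enum S (by omega) 0
  have hS' : ∀ a ∈ S, ∀ t ∈ II, (t : ℂ) ≠ 1 - a := fun a ha t ht e =>
    hS a ha _ (II_sub ht) (by simp [e])
  have g1 : ∀ v, Gd (fl (wd S.card l v)) := fun v => by
    simpa [fl, wd, Function.comp_def] using wd_gd hs (l := fun i => 1 - l i)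
      (fun i hi => hS' _ (l1 i hi)) (fun i hi e => l3 i hi (sub_eq_zero.1 e).symm) v
  have g2 := wd_gd hs (fun i hi => hS _ (k1 i hi)) k3
  obtain ⟨c, m, hr, h0, hc, hm⟩ := exists_mom (K := K) hS hs l1 k1 g1 g2
  obtain ⟨r, r1, r2⟩ := ((eventually_ge_atTop 5).and ((tendsto_const_div_atTop_nhds_zero_nat
    (3 : ℝ)).eventually ((eventually_all_finset S).2 fun a ha =>
      (OO_avoid (hS a ha)).and (OO_avoid (hS' a ha))))).exists
  set U := insert 0 (insert 1 S)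
  have u0 : S ⊆ U := (subset_insert _ _).trans (subset_insert _ _)
  have u1 : (0 : ℂ) ∈ U := mem_insert_self _ _
  have u2 : (1 : ℂ) ∈ U := mem_insert_of_mem (mem_insert_self _ _)
  have u3 : ∀ a ∈ U, a ∈ K := by simpa [U] using hK
  have hα := let_wd hs l1 l2 u0 u2
  have hβ := let_wd hs k1 k2 u0 u1
  obtain ⟨e, D, C0, e1, e2, e3, e4, e5, e6⟩ := exists_mu K U u3
  refine ⟨4 * (29 + 3 * C0) + (8 * r + 8) + C0, fun g δ hg h => ?_⟩
  set B := 4 * (29 + 3 * C0) + (8 * r + 8) + C0 with hB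
  obtain ⟨E, hE, hE1, hE3⟩ := span_dim3 _ h
  have hq : 2 ≤ S.card ^ g := hs.trans (Nat.le_self_pow (by omega) _)
  have hH : S.card ^ g * S.card ^ g = S.card ^ (2 * g) := by ring
  have hN : 4 * (S.card ^ g * S.card ^ g) ≤ S.card ^ (2 * g + 2) := by
    rw [hH, pow_add, mul_comm]
    exact Nat.mul_le_mul_left _ (Nat.pow_le_pow_left hs 2)
  generalize S.card ^ g = q at *
  have hq0 : 0 < q * q := by positivity
  let c' : Bool × Fin (q * q) × Fin (4 * (q * q)) → ℂ := fun p => c p.1 p.2.1 p.2.2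
  have hw : ∀ v < q * q, ∀ w < 4 * (q * q), dp S.card v + dp S.card w < 4 * g + 3 :=
    fun v hv w hw => by
      have := (Nat.digits_length_le_iff hs v).2 (hH ▸ hv)
      have := (Nat.digits_length_le_iff hs w).2 (hw.trans_le hN)
      simp only [dp]
      omega
  let θ : Option (Fin (finrank ℚ K)) × Bool × Fin (q * q) × Fin (4 * (q * q)) → ℂ :=
    fun p => e p.1 * c' p.2
  have hθ : ∀ p, θ p ∈ E := fun p => by
    have := E.smul_mem (⟨_, e2 p.1⟩ : K)
      (hE3 _ (hw _ p.2.2.1.2 _ p.2.2.2.2) (hc p.2.1 p.2.2.1 p.2.2.2))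
    exact this
  obtain ⟨c1, hc0, hc1⟩ := siegel θ (finrank ℚ K * ((4 * g + 3) * δ))
    ((rank_down E hθ).trans (Nat.mul_le_mul_left _ hE1))
    (Submodule.subset_span ⟨(none, true, ⟨0, hq0⟩, ⟨0, by omega⟩), by simp only [θ, c', h0, e1, one_mul]⟩)
  have hb : ∀ b, ∀ v < q * q, ∀ w < 4 * (q * q), Hg θ 1 (c b v w) := fun b v hv w hw =>
    (hg_base (θ := θ) (none, b, ⟨v, hv⟩, ⟨w, hw⟩)).mono le_rfl (by simp only [θ, c', e1, one_mul])
  generalize finrank ℚ K * ((4 * g + 3) * δ) = d at *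
  obtain ⟨C1, p1, p2⟩ := side g1 r1 (fun v a ha => by
    obtain ⟨b, hb, rfl⟩ := List.mem_map.1 ha
    exact (r2 b (wd_mem hs l1 v b hb)).2) (4 * (q * q))
  obtain ⟨C2, p3, p4⟩ := side g2 r1 (fun v a ha => (r2 a (wd_mem hs k1 v a ha)).1) (4 * (q * q))
  set C := C1 + C2
  have hC : 0 ≤ C := add_nonneg p1 p3
  set Ce := ∑ i, ‖e i‖
  have hCe : 0 ≤ Ce := sum_nonneg fun _ _ => norm_nonneg _
  have key : ∀ n, 13 * U.card * (q * q) ≤ n → 1 ≤ c1 * (C0 * Ce * (16 * C ^ 2)) *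
      (2 ^ (B * (g + 1) * (d + 1)) * (1 / 2 : ℝ) ^ q) ^ n := fun n hn => by
    have hn1 : 4 * (q * q) ≤ n := le_trans (Nat.mul_le_mul_right _ (by
      have := card_pos.2 ⟨_, u1⟩
      omega)) hn
    have hn0 : 0 < n := by omega
    have hP : 4 * (q * q) * (n + 1) ≤ 2 ^ (2 * n) := by
      rw [two_mul, pow_add]
      exact Nat.mul_le_mul (hn1.trans n.lt_two_pow_self.le) n.lt_two_pow_self
    have hP' : ((4 * (q * q) : ℕ) : ℝ) * (n + 1) ≤ 2 ^ (2 * n) := by exact_mod_cast hP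
    have hP2 : ((q * q : ℕ) : ℝ) * (n + 1) ≤ 2 ^ (2 * n) := by
      exact_mod_cast le_trans (by nlinarith) hP
    have hL : (Nat.lcmUpto (2 * n + 1) : ℝ) ≤ 2 ^ (24 * n) := by
      exact_mod_cast (lcm_le (2 * n + 1)).trans (Nat.pow_le_pow_right two_pos (by omega))
    have hC0 : (C0 : ℝ) ≤ 2 ^ C0 := by exact_mod_cast C0.lt_two_pow_self.le
    have hD : (D : ℝ) ≤ C0 := by exact_mod_cast e4
    have hK : (Nat.lcmUpto (2 * n + 1) : ℝ) * (4 * (2 * C0) ^ (2 * n + 1)) ≤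
        2 ^ ((29 + 3 * C0) * n) := by
      calc _ ≤ (2 : ℝ) ^ (24 * n) * (2 ^ 2 * (2 * 2 ^ C0) ^ (2 * n + 1)) := by
            gcongr
            norm_num
        _ = 2 ^ (24 * n + (2 + (C0 + 1) * (2 * n + 1))) := by
            rw [← pow_succ', ← pow_mul, ← pow_add, ← pow_add]
        _ ≤ _ := pow_le_pow_right₀ one_le_two (by nlinarith)
    have hG : ((Nat.lcmUpto (2 * n + 1) * D ^ (2 * n + 1) : ℕ) : ℝ) ≤ 2 ^ ((29 + 3 * C0) * n) := by
      refine le_trans ?_ hK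
      push_cast
      gcongr
      exact le_trans (by gcongr; linarith [D.cast_nonneg (α := ℝ)])
        (le_mul_of_one_le_left (by positivity) (by norm_num))
    set X := 2 ^ ((4 * r + 1) * n) - 1
    have hX : (X : ℝ) ≤ 2 ^ ((4 * r + 1) * n) := by exact_mod_cast Nat.sub_le _ _
    have h1 := hc1 (2 ^ (B * (g + 1) * n))
      (C0 * Ce * (16 * C ^ 2) * (2 ^ (B * (g + 1) * n) * (1 / 2) ^ (q * n)))
      (one_le_pow₀ one_le_two) (by positivity) _ ?_ (span_down e3 e5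
        (one_mem3 (G := (Nat.lcmUpto (2 * n + 1) * D ^ (2 * n + 1)) ^ (4 * g + 3)) hs u1 u3 hα hβ
          (by simp [wd]) (by simp [wd]) hr h0 hq hn hn0
          (pow_ne_zero _ (mul_ne_zero (Nat.lcmUpto_ne_zero _) (pow_ne_zero _ e3.ne')))
          (p2 C (le_add_of_nonneg_right p3) _ (by omega) n _ _)
          (p4 C (le_add_of_nonneg_left p1) _ le_rfl n _ _)))
    · refine h1.trans_eq ?_
      rw [mul_pow, ← pow_mul, ← pow_mul, ← pow_mul, show B * (g + 1) * (d + 1) * n =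
        B * (g + 1) * n * d + B * (g + 1) * n by ring, pow_add]
      ring
    rintro _ ⟨i, _, ⟨A, J, hA, hJ, rfl⟩, rfl⟩
    have hA' : ∀ p, (|A p| : ℝ) ≤ X := fun p => by exact_mod_cast hA.1 p
    have hJ' : ∀ p, (|J p| : ℝ) ≤ X := fun p => by exact_mod_cast hJ.1 p
    constructor
    · have h2 := bil_sm hm (by positivity) hA hJ
      have h3 : ‖e i‖ ≤ Ce := single_le_sum (fun _ _ => norm_nonneg _) (mem_univ i)
      rw [norm_mul, norm_mul, norm_mul, Complex.norm_natCast, Complex.norm_natCast, Nat.cast_pow]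
      calc _ ≤ C0 * Ce * ((2 ^ ((29 + 3 * C0) * n)) ^ (4 * g + 3) * (4 * ((1 / 2) ^ (q * n) *
            (4 * (2 ^ (2 * n) * (2 ^ n * C * 2 ^ ((4 * r + 1) * n))) ^ 2)))) := by
            refine mul_le_mul (by gcongr) (mul_le_mul (by gcongr) (h2.trans ?_) (norm_nonneg _)
              (by positivity)) (by positivity) (by positivity)
            gcongr
        _ = C0 * Ce * (16 * C ^ 2) * (2 ^ (((29 + 3 * C0) * (4 * g + 3) + (8 * r + 8)) * n) *
            (1 / 2 : ℝ) ^ (q * n)) := by ring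
        _ ≤ _ := by
            gcongr
            · exact one_le_two
            · nlinarith [Nat.zero_le (g * r), Nat.zero_le (g * C0)]
    · have h2 := e6 _ c' _ (.inr ⟨i, rfl⟩) _ _ (Hg.sum (s := univ)
        fun (p : Fin (q * q) × Fin (n + 1)) _ => Hg.sum (s := univ)
          (Q := X * (X * (2 ^ n * (2 ^ ((29 + 3 * C0) * n)) ^ (4 * g + 3))))
          fun (p' : Fin (4 * (q * q)) × Fin (n + 1)) _ =>
            (((df_hg (fun i hi => integ3 hs hr e4 (e6 _ c' _ (.inl u2))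
              (fun v => e6 _ c' _ (.inl (hα.1 v))) (fun v => e6 _ c' _ (.inl (hβ.1 v)))
              (L := 2 * n + 1) hb _ p.1 p.1.2 p'.1 p'.1.2
              (hw _ p.1.2 _ p'.1.2) i hi) p.2 p'.2 (by omega)).mul (J p')).mul (A p)).mono
              (by
                have := Nat.le_of_lt_succ p.2.2
                gcongr
                exacts [hA' p, hJ' p', one_le_two]) rfl)
      obtain ⟨z, h3, h4⟩ := h2
      simp only [card_univ, Fintype.card_prod, Fintype.card_fin] at h3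
      refine ⟨z, fun i => (single_le_sum (f := fun i => (|z i| : ℝ)) (fun _ _ => abs_nonneg _)
        (mem_univ i)).trans (h3.trans ?_), ?_⟩
      · calc _ ≤ (2 ^ C0) ^ n * (2 ^ (2 * n) * (2 ^ (2 * n) * (2 ^ ((4 * r + 1) * n) *
              (2 ^ ((4 * r + 1) * n) * (2 ^ n * (2 ^ ((29 + 3 * C0) * n) : ℝ) ^ (4 * g + 3)))))) := by
              gcongr
              · exact hC0.trans (le_self_pow₀ (one_le_pow₀ one_le_two) hn0.ne')
              · rwa [Nat.cast_mul, Nat.cast_succ]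
              · rwa [Nat.cast_mul, Nat.cast_succ]
          _ = 2 ^ (((29 + 3 * C0) * (4 * g + 3) + (8 * r + 7) + C0) * n) := by ring
          _ ≤ _ := by
              gcongr
              · exact one_le_two
              · nlinarith [Nat.zero_le (g * r), Nat.zero_le (g * C0)]
      · rw [← h4, bil, mul_sum]
        refine congrArg _ (sum_congr rfl fun p _ => ?_)
        rw [mul_sum]
        exact sum_congr rfl fun p _ => by push_cast; ring
  have h1 : (1 : ℝ) ≤ 2 ^ (B * (g + 1) * (d + 1)) * (1 / 2) ^ q := by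
    by_contra h1
    have h2 := (tendsto_pow_atTop_nhds_zero_of_lt_one (by positivity) (not_le.1 h1)).const_mul
      (c1 * (C0 * Ce * (16 * C ^ 2)))
    have h3 := ge_of_tendsto h2 (eventually_atTop.2 ⟨_, key⟩)
    norm_num at h3
  rw [one_div, inv_pow, ← div_eq_mul_inv, one_le_div (by positivity)] at h1
  exact (pow_le_pow_iff_right₀ one_lt_two).1 h1

theorem dim_lower3 [FiniteDimensional ℚ K] (hK : ∀ a ∈ S, a ∈ K)
    (hS : ∀ a ∈ S, ∀ t ∈ II, (t : ℂ) ≠ a) (hs : 2 ≤ S.card) :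
    ∃ C : ℕ, ∀ w ≥ 2, S.card ^ (w / 4) ≤ C * w ^ 2 * finrank K (ZS K S w) := by
  obtain ⟨B, hB⟩ := main3 hK hS hs
  refine ⟨S.card * (B * (finrank ℚ K + 1) + 1), fun w hw => ?_⟩
  have h4 := ZS_pos (K := K) hS hs hw
  have h5 : S.card ≤ S.card * (B * (finrank ℚ K + 1) + 1) * w ^ 2 * finrank K (ZS K S w) := by
    rw [mul_assoc, mul_assoc]
    exact Nat.le_mul_of_pos_right _ (by positivity)
  rcases lt_or_ge w 8 with hk | hk
  · exact le_trans ((Nat.pow_le_pow_right (by omega) (by omega)).trans_eq (pow_one _)) h5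
  obtain ⟨g, h6, h7, h8⟩ : ∃ g, 1 ≤ g ∧ 4 * g + 4 ≤ w ∧ w / 4 = g + 1 :=
    ⟨w / 4 - 1, by omega, by omega, by omega⟩
  have h9 := hB g _ h6 fun j hj => (ZS_mono hS hs j (w - 2 - j)).trans_eq
    (by rw [show j + 2 + (w - 2 - j) = w by omega])
  generalize finrank K (ZS K S w) = γ at *
  rw [h8, pow_succ', mul_assoc, mul_assoc]
  refine Nat.mul_le_mul_left _ (h9.trans ?_)
  calc _ ≤ B * w * (finrank ℚ K * (w * γ) + w * γ) := by
        gcongr
        · omega
        · omega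
        · exact Nat.mul_pos (by omega) h4
    _ = B * (finrank ℚ K + 1) * (w ^ 2 * γ) := by ring
    _ ≤ _ := by gcongr; omega

end Pool.Agent.Lib.MP_12eca1_ag.MY
end

-- part Pool.Agent.Lib.MP_12eca1_ag.Y.Fin
section

/-! The rational span, and the explicit constant for multiple zeta values. -/

namespace Pool.Agent.Lib.MP_12eca1_ag.MY

open Module Filter Topology Pool.Agent.Lib.MP_dda4e9_nt.LB Pool.Agent.Lib.MP_12eca1_ag.MZ

theorem rank_up (K : IntermediateField ℚ ℂ) (X : Set ℂ)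
    [FiniteDimensional ℚ (Submodule.span ℚ X)] :
    finrank K (Submodule.span K X) ≤ finrank ℚ (Submodule.span ℚ X) := by
  let b := finBasis ℚ (Submodule.span ℚ X)
  have : FiniteDimensional K (Submodule.span K (Set.range fun i => (b i : ℂ))) :=
    FiniteDimensional.span_of_finite K (Set.finite_range _)
  refine (Submodule.finrank_mono (Submodule.span_le.2 fun x hx => ?_)).trans
    ((finrank_range_le_card fun i => (b i : ℂ)).trans_eq (Fintype.card_fin _))
  have h := congrArg Subtype.val (b.sum_repr ⟨x, Submodule.subset_span hx⟩)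
  rw [AddSubmonoidClass.coe_finsetSum] at h
  rw [show x = _ from h.symm]
  exact Submodule.sum_mem _ fun i _ =>
    Submodule.smul_of_tower_mem _ _ (Submodule.subset_span ⟨i, rfl⟩)

theorem gd_two (v : ℕ) : Gd (wd 2 (↑) v) :=
  wd_gd le_rfl (fun i hi t ht e => by
    have : t = i := by exact_mod_cast e
    interval_cases i
    exacts [ht.1.ne' (by simpa using this), ht.2.ne (by simpa using this)]) (by simp) v

theorem gg_eq (u : ℕ) : ∃ ε : ℚ, ∀ t ∈ II, gg u t = ε * itInt (wd 2 (↑) u) t := by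
  induction u using Nat.strong_induction_on with
  | _ u ih =>
  by_cases hu : u = 0
  · exact ⟨1, fun t _ => by simp [hu, gg_nil, wd, itInt]⟩
  obtain ⟨ε, h⟩ := ih (u / 2) (by omega)
  have h1 := gd_two u
  rw [wd_cons le_rfl hu] at h1 ⊢
  refine ⟨if u % 2 = 0 then ε else -ε, fun t ht => uniq (fun t ht => gg_der u ht)
    (fun t ht => ((h1.der ht).const_mul _).congr_deriv ?_) (gg_lim hu)
    (by simpa using h1.lim0.const_mul _) ht⟩
  have := ne0 ht
  have := ne1 ht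
  have : (t : ℂ) - 1 ≠ 0 := fun e => this (by linear_combination -e)
  rw [h t ht]
  split_ifs with h2
  · rw [kap_even hu h2, h2]
    simp only [Nat.cast_zero, sub_zero]
    field_simp
  · rw [kap_odd h2, show u % 2 = 1 by omega]
    push_cast
    field_simp
    ring

theorem dp_two (u : ℕ) : dp 2 u = u.size := by
  induction u using Nat.strong_induction_on with
  | _ u ih =>
  by_cases hu : u = 0
  · simp [hu, dp]
  rw [dp_div le_rfl hu, size_half hu, ih _ (by omega)]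

theorem dim_lower4 {S : Finset ℂ} (hK : ∀ a ∈ S, IsAlgebraic ℚ a)
    (hS : ∀ a ∈ S, ∀ t ∈ II, (t : ℂ) ≠ a) (hs : 2 ≤ S.card) :
    ∃ C : ℕ, ((S : Set ℂ) = {0, 1} → C = 1000) ∧ ∀ w ≥ 2, S.card ^ (w / 4) ≤ C * w ^ 2 *
      finrank ℚ (Submodule.span ℚ {x | ∃ u : List ℂ, u.length = w ∧ (∀ a ∈ u, a ∈ S) ∧
        u.head? ≠ some 1 ∧ u.getLast? ≠ some 0 ∧ x = itInt u 1}) := by
  have fin : ∀ w, FiniteDimensional ℚ (Submodule.span ℚ {x | ∃ u : List ℂ, u.length = w ∧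
      (∀ a ∈ u, a ∈ S) ∧ u.head? ≠ some 1 ∧ u.getLast? ≠ some 0 ∧ x = itInt u 1}) := fun w =>
    FiniteDimensional.span_of_finite ℚ (((List.finite_length_eq S w).image
      fun u => itInt (u.map (↑)) 1).subset (by
        rintro _ ⟨u, h1, h2, -, -, rfl⟩
        lift u to List S using h2
        exact ⟨u, by simpa using h1, rfl⟩))
  by_cases h : (S : Set ℂ) = {0, 1}
  · refine ⟨1000, fun _ => rfl, fun w hw => ?_⟩
    rw [← Set.ncard_coe_finset, h, Set.ncard_pair zero_ne_one]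
    refine (dim_lower2 hw).trans (Nat.mul_le_mul_left _
      (Submodule.finrank_mono (Submodule.span_le.2 ?_)))
    rintro _ ⟨u, h1, h2, rfl, rfl⟩
    obtain ⟨ε, h3⟩ := gg_eq u
    have h4 := gd_two u
    have h5 := wd_cons (l := (↑)) le_rfl h1
    rw [h2, Nat.cast_zero] at h5
    have h6 := (Gd.lim1 (h5 ▸ h4) zero_ne_one).const_mul (ε : ℂ)
    rw [← h5] at h6
    rw [tendsto_nhds_unique (gg_lim1 h1 h2) (h6.congr' (ev1.mono fun t ht => (h3 t ht).symm)),
      ← Rat.smul_def]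
    refine Submodule.smul_mem _ _ (Submodule.subset_span ⟨_, by simpa [wd, dp] using dp_two u,
      wd_mem le_rfl (fun i hi => ?_) u, by simp [h5], ((gd_iff _).1 h4).2, rfl⟩)
    rw [← Finset.mem_coe, h]
    interval_cases i <;> simp
  have : FiniteDimensional ℚ (IntermediateField.adjoin ℚ (S : Set ℂ)) :=
    IntermediateField.finiteDimensional_adjoin fun a ha => (hK a ha).isIntegral
  obtain ⟨C, hC⟩ := dim_lower3 (K := IntermediateField.adjoin ℚ (S : Set ℂ))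
    (fun a ha => IntermediateField.subset_adjoin _ _ ha) hS hs
  exact ⟨C, fun e => absurd e h, fun w hw => (hC w hw).trans
    (Nat.mul_le_mul_left _ (rank_up _ _))⟩

end Pool.Agent.Lib.MP_12eca1_ag.MY
end
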